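import Pool.Agent.MPd14d18.Kempe

set_option autoImplicit false

/-!
# Kempe chains in terms of involutions

An edge colouring of a multigraph on `W` is a family `m : ℕ → W → W` of involutions: `m c` exchanges
the ends of the edges with colour `c`.
-/

namespace Pool.Agent.K7.H15.WR

open Finset Pool.Agent.MPd14d18

section chain

variable {W : Type*} [Fintype W] [DecidableEq W]

/-- The Kempe chain which starts at the end `v` has at most one other end. -/
theorem chain_exists (g h : W → W) (hg : ∀ v, g (g v) = v) (hh : ∀ v, h (h v) = v) (v : W)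
    (hv : g v = v) :
    ∃ S : Finset W, v ∈ S ∧ (∀ w ∈ S, g w ∈ S) ∧ (∀ w ∈ S, h w ∈ S) ∧
      ∀ a ∈ S, ∀ b ∈ S, a ≠ v → b ≠ v → (g a = a ∨ h a = a) → (g b = b ∨ h b = b) → a = b := by
  classical
  let p : Equiv.Perm W := ⟨fun v => g (h v), fun v => h (g v),
    fun v => by simp [hg, hh], fun v => by simp [hg, hh]⟩
  let gp : Equiv.Perm W := ⟨g, g, hg, hg⟩
  have hconj : gp * p * gp⁻¹ = p⁻¹ := by
    ext w
    show g (g (h (g w))) = h (g w)
    rw [hg]
  have key : ∀ k : ℤ, ∀ w, g ((p ^ k) w) = (p ^ (-k)) (g w) := by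
    intro k w
    have h1 : gp * p ^ k * gp⁻¹ = p ^ (-k) := by
      rw [← conj_zpow, hconj, inv_zpow, zpow_neg]
    have h2 : gp * p ^ k = p ^ (-k) * gp := by
      rw [← h1]; group
    have := congrArg (fun q : Equiv.Perm W => q w) h2
    exact this
  have keyh : ∀ k : ℤ, h ((p ^ k) v) = (p ^ (-(k + 1))) v := by
    intro k
    have h1 : (p ^ (k + 1)) v = g (h ((p ^ k) v)) := by
      rw [add_comm, zpow_add, zpow_one]; rfl
    have h2 := key (k + 1) v
    rw [hv, h1, hg] at h2
    exact h2
  have per0 : ∀ k : ℤ, (p ^ k) v = v → ((MulAction.period p v : ℕ) : ℤ) ∣ k := by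
    intro k hk
    rw [← MulAction.zpow_smul_eq_iff_period_dvd]
    exact hk
  have eqv : ∀ k l : ℤ, ((MulAction.period p v : ℕ) : ℤ) ∣ k - l →
      (p ^ k) v = (p ^ l) v := by
    intro k l hkl
    rw [← MulAction.zpow_smul_eq_iff_period_dvd] at hkl
    have h3 : (p ^ (k - l)) v = v := hkl
    have h4 : (p ^ k) v = (p ^ l) ((p ^ (k - l)) v) := by
      have : (p ^ l) ((p ^ (k - l)) v) = (p ^ l * p ^ (k - l)) v := rfl
      rw [this, ← zpow_add]; congr 2; ring
    rw [h4, h3]
  have per : ∀ k l : ℤ, (p ^ l) v = (p ^ k) v → ((MulAction.period p v : ℕ) : ℤ) ∣ k - l := by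
    intro k l hk
    apply per0
    have h3 : (p ^ (k - l)) v = (p ^ (-l)) ((p ^ k) v) := by
      have h4 : (p ^ (-l)) ((p ^ k) v) = (p ^ (-l) * p ^ k) v := rfl
      rw [h4, ← zpow_add]; congr 2; ring
    rw [h3, ← hk]
    have h4 : (p ^ (-l)) ((p ^ l) v) = (p ^ (-l) * p ^ l) v := rfl
    rw [h4, ← zpow_add]; simp
  let S : Finset W := univ.filter (fun w => ∃ k : ℤ, (p ^ k) v = w)
  refine ⟨S, ?_, ?_, ?_, ?_⟩
  · simp only [S, mem_filter, mem_univ, true_and]
    exact ⟨0, by simp⟩
  · intro w hw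
    simp only [S, mem_filter, mem_univ, true_and] at hw ⊢
    obtain ⟨k, rfl⟩ := hw
    exact ⟨-k, by rw [key, hv]⟩
  · intro w hw
    simp only [S, mem_filter, mem_univ, true_and] at hw ⊢
    obtain ⟨k, rfl⟩ := hw
    exact ⟨-(k + 1), (keyh k).symm⟩
  · intro a ha b hb hav hbv hea heb
    simp only [S, mem_filter, mem_univ, true_and] at ha hb
    obtain ⟨ka, rfl⟩ := ha
    obtain ⟨kb, rfl⟩ := hb
    set N : ℤ := ((MulAction.period p v : ℕ) : ℤ) with hN
    have hna : ¬ N ∣ ka := by
      intro h1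
      apply hav
      have := eqv ka 0 (by simpa using h1)
      simpa using this
    have hnb : ¬ N ∣ kb := by
      intro h1
      apply hbv
      have := eqv kb 0 (by simpa using h1)
      simpa using this
    have hend : ∀ k : ℤ, (g ((p ^ k) v) = (p ^ k) v ∨ h ((p ^ k) v) = (p ^ k) v) →
        ¬ N ∣ k → (N ∣ 2 * k ∨ N ∣ 2 * k + 1) := by
      intro k hk _
      rcases hk with hk | hk
      · left
        rw [key, hv] at hk
        have := per k (-k) hk
        have e : k - -k = 2 * k := by ring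
        rwa [e] at this
      · right
        rw [keyh] at hk
        have := per k (-(k + 1)) hk
        have e : k - -(k + 1) = 2 * k + 1 := by ring
        rwa [e] at this
    have key2 : ∀ k : ℤ, N ∣ 2 * k → ¬ N ∣ k → ∃ s : ℤ, 2 * k = N * s ∧ s % 2 = 1 ∧ N % 2 = 0 := by
      intro k hk hnk
      obtain ⟨s, hs⟩ := hk
      have hs2 : s % 2 = 1 := by
        by_contra h1
        have h2 : s % 2 = 0 := by omega
        obtain ⟨r, hr⟩ := Int.dvd_of_emod_eq_zero h2
        apply hnk
        refine ⟨r, ?_⟩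
        rw [hr] at hs
        have : 2 * k = 2 * (N * r) := by rw [hs]; ring
        omega
      refine ⟨s, hs, hs2, ?_⟩
      have h3 : (N * s) % 2 = 0 := by rw [← hs]; omega
      rcases Int.emod_two_eq_zero_or_one N with h4 | h4
      · exact h4
      · exfalso
        rw [Int.mul_emod, h4, hs2] at h3
        norm_num at h3
    have key3 : ∀ k : ℤ, N ∣ 2 * k + 1 → N % 2 = 1 := by
      intro k hk
      obtain ⟨s, hs⟩ := hk
      rcases Int.emod_two_eq_zero_or_one N with h4 | h4
      · exfalso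
        have h3 : (N * s) % 2 = 1 := by rw [← hs]; omega
        rw [Int.mul_emod, h4] at h3
        norm_num at h3
      · exact h4
    have hodd : ∀ k : ℤ, N % 2 = 1 → N ∣ 2 * k → N ∣ k := by
      intro k h1 h2
      by_contra h3
      obtain ⟨_, _, _, h4⟩ := key2 k h2 h3
      omega
    rcases hend ka hea hna with h1 | h1 <;> rcases hend kb heb hnb with h2 | h2
    · obtain ⟨s, hs, hs2, _⟩ := key2 ka h1 hna
      obtain ⟨t, ht, ht2, _⟩ := key2 kb h2 hnb
      apply eqv
      have h3 : (s - t) % 2 = 0 := by omega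
      obtain ⟨r, hr⟩ := Int.dvd_of_emod_eq_zero h3
      refine ⟨r, ?_⟩
      have : 2 * (ka - kb) = 2 * (N * r) := by
        have h4 : 2 * (ka - kb) = N * (s - t) := by rw [mul_sub, hs, ht]; ring
        rw [h4, hr]; ring
      omega
    · have h3 := key3 kb h2
      exact absurd (hodd ka h3 h1) hna
    · have h3 := key3 ka h1
      exact absurd (hodd kb h3 h2) hnb
    · have h3 := key3 ka h1
      apply eqv
      apply hodd _ h3
      have h4 := dvd_sub h1 h2
      have e : 2 * ka + 1 - (2 * kb + 1) = 2 * (ka - kb) := by ring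
      rwa [e] at h4

end chain

end Pool.Agent.K7.H15.WR
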