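import Pool.Agent.K7.H15.WR.Loc
import Pool.Agent.X76.Wreath

set_option autoImplicit false

/-!
# The colouring of the multigraph `H`

`H` is the multigraph on the vertices of `G'` whose edges are those of `G'` and `d` further edges
between any two vertices of the same orbit. Orbits which are not joined to other orbits are left out.
-/

namespace Pool.Agent.K7.H15.WR

open Finset Pool.Agent.MPd14d18 Pool.Agent.X76.Wr

section orbits

variable {W : Type} (G' : SimpleGraph W)

/-- `u` and `w` are in the same orbit -/
def T (u w : W) : Prop := ∃ φ : G' ≃g G', φ u = w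

/-- `u` is joined to a vertex in another orbit -/
def NI (u : W) : Prop := ∃ w, G'.Adj u w ∧ ¬ T G' u w

noncomputable instance : DecidableRel (T G') := fun _ _ => Classical.propDecidable _

noncomputable instance : DecidablePred (NI G') := fun _ => Classical.propDecidable _

variable {G'}

theorem T.refl (u : W) : T G' u u := ⟨SimpleGraph.Iso.refl, rfl⟩

theorem T.symm {u w : W} (h : T G' u w) : T G' w u := by
  obtain ⟨φ, rfl⟩ := h
  exact ⟨φ.symm, by simp⟩

theorem T.trans {u v w : W} (h : T G' u v) (h' : T G' v w) : T G' u w := by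
  obtain ⟨φ, rfl⟩ := h
  obtain ⟨ψ, rfl⟩ := h'
  exact ⟨φ.trans ψ, by simp⟩

theorem T.adj {u w : W} (φ : G' ≃g G') (h : G'.Adj u w) : G'.Adj (φ u) (φ w) :=
  φ.map_adj_iff.2 h

theorem T.iso (φ : G' ≃g G') (u : W) : T G' u (φ u) := ⟨φ, rfl⟩

theorem NI.of_T {u w : W} (hu : NI G' u) (h : T G' u w) : NI G' w := by
  obtain ⟨v, hv, hT⟩ := hu
  obtain ⟨φ, rfl⟩ := h
  refine ⟨φ v, T.adj φ hv, fun h1 => hT ?_⟩
  exact (T.iso φ u).trans (h1.trans (T.iso φ v).symm)

theorem NI.left {u w : W} (h : G'.Adj u w) (hT : ¬ T G' u w) : NI G' u := ⟨w, h, hT⟩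

theorem NI.right {u w : W} (h : G'.Adj u w) (hT : ¬ T G' u w) : NI G' w :=
  ⟨u, h.symm, fun h1 => hT h1.symm⟩

end orbits

section nums

variable {W : Type} [Fintype W] [DecidableEq W] (G' : SimpleGraph W) [DecidableRel G'.Adj]

/-- the number of neighbours in the same orbit -/
noncomputable def inn (u : W) : ℕ := (univ.filter fun w => G'.Adj u w ∧ T G' u w).card

/-- the number of neighbours in other orbits -/
noncomputable def out (u : W) : ℕ := (univ.filter fun w => G'.Adj u w ∧ ¬ T G' u w).card

variable {G'}

omit [DecidableEq W] in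
theorem inn_add_out (u : W) : inn G' u + out G' u = G'.degree u := by
  rw [inn, out, ← SimpleGraph.card_neighborFinset_eq_degree]
  rw [← Finset.filter_filter, ← Finset.filter_filter, Finset.card_filter_add_card_filter_not]
  congr 1
  ext w
  simp

omit [DecidableEq W] [DecidableRel G'.Adj] in
theorem card_orbit (u : W) : (univ.filter fun w => T G' u w).card = orb G' u := by
  rw [orb, ← Set.ncard_coe_finset]
  congr 1
  ext w'
  rw [Finset.mem_coe, mem_filter]
  exact ⟨fun h => h.2, fun h => ⟨mem_univ _, h⟩⟩

omit [DecidableEq W] in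
theorem degree_T {u w : W} (h : T G' u w) : G'.degree u = G'.degree w := by
  obtain ⟨φ, rfl⟩ := h
  exact (φ.degree_eq u).symm

variable (G') in
/-- the multiplicities inside orbits -/
noncomputable def zin (d : ℕ) (u w : W) : ℕ :=
  if NI G' u ∧ T G' u w ∧ u ≠ w then (if G'.Adj u w then 1 else 0) + d else 0

variable (G') in
/-- and some edges between orbits -/
noncomputable def zF (d : ℕ) (F : Finset (Sym2 W)) (u w : W) : ℕ :=
  zin G' d u w + if s(u, w) ∈ F then 1 else 0

variable (G') in
/-- the edges between orbits -/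
noncomputable def crossE : Finset (Sym2 W) :=
  G'.edgeFinset.filter fun e => ∃ u w, e = s(u, w) ∧ ¬ T G' u w

theorem mem_crossE {u w : W} : s(u, w) ∈ crossE G' ↔ G'.Adj u w ∧ ¬ T G' u w := by
  rw [crossE, mem_filter, SimpleGraph.mem_edgeFinset, SimpleGraph.mem_edgeSet]
  constructor
  · rintro ⟨h1, a, b, h2, h3⟩
    refine ⟨h1, ?_⟩
    rw [Sym2.eq_iff] at h2
    rcases h2 with ⟨rfl, rfl⟩ | ⟨rfl, rfl⟩
    · exact h3
    · exact fun h => h3 h.symm
  · rintro ⟨h1, h2⟩
    exact ⟨h1, u, w, rfl, h2⟩

theorem zin_comm (d : ℕ) (u w : W) : zin G' d u w = zin G' d w u := by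
  unfold zin
  have h : (NI G' u ∧ T G' u w ∧ u ≠ w) ↔ (NI G' w ∧ T G' w u ∧ w ≠ u) := by
    constructor
    · rintro ⟨h1, h2, h3⟩; exact ⟨h1.of_T h2, h2.symm, h3.symm⟩
    · rintro ⟨h1, h2, h3⟩; exact ⟨h1.of_T h2, h2.symm, h3.symm⟩
  simp only [h, G'.adj_comm u w]

theorem sum_zin (d : ℕ) (u : W) : ∑ w ∈ univ.erase u, zin G' d u w =
    if NI G' u then inn G' u + d * (orb G' u - 1) else 0 := by
  by_cases hu : NI G' u
  · rw [if_pos hu]
    have h1 : ∀ w ∈ univ.erase u, zin G' d u w =
        (if G'.Adj u w ∧ T G' u w then 1 else 0) + (if T G' u w then d else 0) := by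
      intro w hw
      have hne := (Finset.ne_of_mem_erase hw).symm
      unfold zin
      by_cases hT : T G' u w
      · simp [hu, hT, hne]
      · simp [hT]
    rw [Finset.sum_congr rfl h1, Finset.sum_add_distrib, ← Finset.card_filter, ← Finset.sum_filter,
      Finset.sum_const, smul_eq_mul]
    congr 1
    · rw [inn]
      congr 1
      ext w
      simp only [mem_filter, mem_erase, mem_univ, and_true, true_and]
      constructor
      · rintro ⟨-, h⟩; exact h
      · intro h; exact ⟨(G'.ne_of_adj h.1).symm, h⟩
    · rw [mul_comm]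
      congr 1
      have h2 : (univ.erase u).filter (fun w => T G' u w) =
          (univ.filter fun w => T G' u w).erase u := by
        ext w
        simp only [mem_filter, mem_erase, mem_univ, and_true, true_and]
      rw [h2, Finset.card_erase_of_mem (mem_filter.2 ⟨mem_univ _, T.refl u⟩), card_orbit]
  · rw [if_neg hu]
    apply Finset.sum_eq_zero
    intro w _
    unfold zin
    rw [if_neg (fun h => hu h.1)]

theorem sum_cross {F : Finset (Sym2 W)} (hF : F ⊆ crossE G') (u : W) :
    ∑ w ∈ univ.erase u, (if s(u, w) ∈ F then 1 else 0) ≤ out G' u := by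
  rw [← Finset.card_filter, out]
  apply Finset.card_le_card
  intro w hw
  rw [mem_filter] at hw ⊢
  exact ⟨mem_univ _, mem_crossE.1 (hF hw.2)⟩

theorem sum_cross' {F : Finset (Sym2 W)} (hF : F ⊆ crossE G') {u v : W}
    (huv : s(u, v) ∈ crossE G') (hn : s(u, v) ∉ F) :
    (∑ w ∈ univ.erase u, (if s(u, w) ∈ F then 1 else 0)) + 1 ≤ out G' u := by
  rw [← Finset.card_filter, out]
  have h1 : v ∈ univ.filter fun w => G'.Adj u w ∧ ¬ T G' u w :=
    mem_filter.2 ⟨mem_univ _, mem_crossE.1 huv⟩
  rw [← Finset.card_erase_add_one h1]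
  apply Nat.add_le_add_right
  apply Finset.card_le_card
  intro w hw
  rw [mem_filter] at hw
  rw [mem_erase, mem_filter]
  refine ⟨?_, mem_univ _, mem_crossE.1 (hF hw.2)⟩
  rintro rfl
  exact hn hw.2

theorem orb_pos (u : W) : 1 ≤ orb G' u := by
  rw [← card_orbit]
  exact Finset.card_pos.2 ⟨u, mem_filter.2 ⟨mem_univ _, T.refl u⟩⟩

theorem orb_T {u w : W} (h : T G' u w) : orb G' u = orb G' w := orb_eq G' u w h

theorem degF {d : ℕ} {F : Finset (Sym2 W)} (hF : F ⊆ crossE G') (u : W) :
    (∑ w ∈ univ.erase u, zF G' d F u w) + d ≤ d * orb G' u + G'.degree u := by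
  unfold zF
  rw [Finset.sum_add_distrib, sum_zin]
  have h1 := sum_cross hF u
  have h2 := inn_add_out (G' := G') u
  have h3 := orb_pos (G' := G') u
  have h4 : d * orb G' u = d * (orb G' u - 1) + d := by
    obtain ⟨k, hk⟩ : ∃ k, orb G' u = k + 1 := ⟨orb G' u - 1, by omega⟩
    rw [hk, Nat.add_sub_cancel, Nat.mul_succ]
  split_ifs <;> omega

theorem degF' {d : ℕ} {F : Finset (Sym2 W)} (hF : F ⊆ crossE G') {u v : W}
    (huv : s(u, v) ∈ crossE G') (hn : s(u, v) ∉ F) :
    (∑ w ∈ univ.erase u, zF G' d F u w) + (d + 1) ≤ d * orb G' u + G'.degree u := by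
  unfold zF
  rw [Finset.sum_add_distrib, sum_zin]
  have h1 := sum_cross' hF huv hn
  have h2 := inn_add_out (G' := G') u
  have h3 := orb_pos (G' := G') u
  have h4 : d * orb G' u = d * (orb G' u - 1) + d := by
    obtain ⟨k, hk⟩ : ∃ k, orb G' u = k + 1 := ⟨orb G' u - 1, by omega⟩
    rw [hk, Nat.add_sub_cancel, Nat.mul_succ]
  split_ifs <;> omega

variable (G') in
/-- the condition for the edges between orbits -/
def Cond (d D : ℕ) : Prop := ∀ x y, G'.Adj x y → ¬ T G' x y →
  (univ.filter fun w => G'.Adj x w ∧ G'.Adj y w).card ≤ 3 ∨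
    d * orb G' x + G'.degree x < D ∨ d * orb G' y + G'.degree y < D ∨
    inn G' x ≤ 1 ∨ inn G' y ≤ 1

/-- **The colouring of `H`.** -/
theorem cross_colouring {d D : ℕ} (hd : 1 ≤ d) (hD : ∀ u, d * orb G' u + G'.degree u ≤ D)
    (hc : 2 ≤ d ∨ Cond G' d D) : ∃ m, Ok (range D) (zF G' d (crossE G')) m := by
  have key : ∀ F : Finset (Sym2 W), F ⊆ crossE G' → ∃ m, Ok (range D) (zF G' d F) m := by
    intro F
    induction F using Finset.induction_on with
    | empty =>
      intro _
      have hz : ∀ u w, zF G' d ∅ u w = zin G' d u w := by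
        intro u w
        unfold zF
        simp
      obtain ⟨m, hm⟩ := lvizing (range D) (zin G' d) (zin_comm d)
        (fun x => by unfold zin; simp) (by
          intro u x
          rw [sum_zin, card_range]
          by_cases hu : NI G' u
          · rw [if_pos hu]
            have h1 : zin G' d u x ≤ d + 1 := by
              unfold zin
              split_ifs <;> omega
            have h2 : 1 ≤ out G' u := by
              obtain ⟨w, hw⟩ := hu
              exact Finset.card_pos.2 ⟨w, mem_filter.2 ⟨mem_univ _, hw⟩⟩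
            have h3 := inn_add_out (G' := G') u
            have h4 := hD u
            have h5 := orb_pos (G' := G') u
            have h6 : d * orb G' u = d * (orb G' u - 1) + d := by
              obtain ⟨k, hk⟩ : ∃ k, orb G' u = k + 1 := ⟨orb G' u - 1, by omega⟩
              rw [hk, Nat.add_sub_cancel, Nat.mul_succ]
            omega
          · rw [if_neg hu]
            have h1 : zin G' d u x = 0 := by
              unfold zin
              rw [if_neg (fun h => hu h.1)]
            rw [h1]
            exact Nat.zero_le _)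
      exact ⟨m, hm.1, fun u w huw => by rw [hm.2 u w huw, hz]⟩
    | insert e F he ih =>
      intro hF
      have hF' : F ⊆ crossE G' := fun a ha => hF (mem_insert_of_mem ha)
      obtain ⟨m, hm⟩ := ih hF'
      have heC : e ∈ crossE G' := hF (mem_insert_self _ _)
      induction e using Sym2.ind with
      | _ x y =>
      obtain ⟨hadj, hT⟩ := mem_crossE.1 heC
      have hT' : ¬ T G' y x := fun h => hT h.symm
      have hxy := G'.ne_of_adj hadj
      have heC' : s(y, x) ∈ crossE G' := by rw [Sym2.eq_swap]; exact heC
      have he' : s(y, x) ∉ F := by rw [Sym2.eq_swap]; exact he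
      obtain ⟨m', hm'⟩ := ext_pair (L := range D) (z := zF G' d F) hm hxy d hd G'.Adj (T G')
        T.refl (fun u v h => h.symm) (fun u v w h h' => h.trans h') hT
        (by
          intro u w hwu
          unfold zF zin
          by_cases hTuw : T G' u w
          · have h1 : s(u, w) ∉ F := fun h => (mem_crossE.1 (hF' h)).2 hTuw
            simp only [h1, if_false, hTuw, if_true, add_zero]
            split_ifs <;> omega
          · by_cases h1 : s(u, w) ∈ F
            · have h2 := (mem_crossE.1 (hF' h1)).1
              simp [hTuw, h1, h2]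
            · simp [hTuw, h1])
        (by unfold zF zin; simp [hT, he]) (by unfold zF zin; simp [hT', he'])
        (fun u => by rw [card_range]; exact (degF hF' u).trans (hD u))
        (by rw [card_range]; exact (degF' hF' heC he).trans (hD x))
        (by rw [card_range]; exact (degF' hF' heC' he').trans (hD y))
        (by
          rcases hc with hc | hc
          · exact Or.inl hc
          right
          rcases hc x y hadj hT with h | h | h | h | h
          · exact Or.inl h
          · right; left
            intro u hu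
            have h1 := degF (d := d) hF' u
            rw [← orb_T hu, ← degree_T hu] at h1
            rw [card_range]; omega
          · right; right; left
            intro u hu
            have h1 := degF (d := d) hF' u
            rw [← orb_T hu, ← degree_T hu] at h1
            rw [card_range]; omega
          · exact Or.inr (Or.inr (Or.inr (Or.inl h)))
          · exact Or.inr (Or.inr (Or.inr (Or.inr h))))
      refine ⟨m', hm'.1, fun u w huw => ?_⟩
      rw [hm'.2 u w huw]
      unfold addE zF
      rw [add_assoc]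
      congr 1
      have hiff : ((u = x ∧ w = y) ∨ (u = y ∧ w = x)) ↔ s(u, w) = s(x, y) := by
        rw [Sym2.eq_iff]
      by_cases h1 : s(u, w) = s(x, y)
      · rw [if_pos (hiff.2 h1), h1, if_neg he, if_pos (mem_insert_self _ _)]
      · rw [if_neg (fun h => h1 (hiff.1 h)), add_zero]
        have h2 : s(u, w) ∈ insert s(x, y) F ↔ s(u, w) ∈ F := by
          rw [mem_insert]
          exact ⟨fun h => h.resolve_left h1, Or.inr⟩
        simp only [h2]
  exact key _ subset_rfl

end nums

end Pool.Agent.K7.H15.WR
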