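import Pool.Agent.K7.H15.WR.Fan
import Pool.Agent.MPd14d18.Star

set_option autoImplicit false

/-!
# One more edge

Let `m` be an edge colouring of a multigraph, and `x ≠ y` vertices which are not joined. If no
colouring can be extended to a further edge `x y` then the degrees satisfy the inequality `count`.
The theorem `ext_pair` is the application.
-/

namespace Pool.Agent.K7.H15.WR

open Finset Pool.Agent.MPd14d18

variable {W : Type*} [Fintype W] [DecidableEq W]

/-- `v` can be reached by a chain -/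
def Reach (L : Finset ℕ) (m : ℕ → W → W) (x y : W) (v : W) : Prop :=
  ∃ p b c r, Ch L m x y p b c r ∧ b p = v

theorem reach_root {L : Finset ℕ} {m : ℕ → W → W} {x y u : W} (hu : u = x ∨ u = y) :
    Reach L m x y u := ⟨0, _, _, _, Ch.zero hu, rfl⟩

theorem reach_closed {L : Finset ℕ} {m : ℕ → W → W} {x y v ρ : W} (hv : Reach L m x y v) {α : ℕ}
    (hα : α ∈ L) (h1 : m α v = v) (hρ : ρ = x ∨ ρ = y) :
    Reach L m x y (m α ρ) := by
  obtain ⟨p, b, c, r, hc, rfl⟩ := hv
  by_cases hx : m α ρ = x
  · exact reach_root (Or.inl hx)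
  by_cases hy : m α ρ = y
  · exact reach_root (Or.inr hy)
  by_cases hex : ∃ i ≤ p, b i = m α ρ
  · obtain ⟨i, hi, h⟩ := hex
    exact ⟨i, b, c, r, hc.pre hi, h⟩
  push Not at hex
  refine ⟨p + 1, fun i => if i ≤ p then b i else m α ρ, fun j => if j < p then c j else α,
    fun j => if j < p then r j else ρ, ?_, ?_⟩
  · refine ⟨?_, ?_, ?_, ?_, ?_, ?_, ?_⟩
    · simp only [Nat.zero_le, if_true]
      exact hc.b0
    · intro j hj
      by_cases h : j < p
      · simp only [h, if_true]; exact hc.cL j h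
      · simp only [h, if_false]; exact hα
    · intro j hj
      have hjp : j ≤ p := by omega
      by_cases h : j < p
      · simp only [h, hjp, if_true]; exact hc.miss j h
      · have : j = p := by omega
        subst this
        simp only [lt_irrefl, le_refl, if_true, if_false]
        exact h1
    · intro j hj
      by_cases h : j < p
      · simp only [h, if_true]; exact hc.root j h
      · simp only [h, if_false]; exact hρ
    · intro j hj
      by_cases h : j < p
      · have h' : j + 1 ≤ p := by omega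
        simp only [h, h', if_true]; exact hc.edge j h
      · have : j = p := by omega
        subst this
        have h' : ¬ (j + 1 ≤ j) := by omega
        simp only [lt_irrefl, h', if_false]
    · intro j hj
      by_cases h : j < p
      · have h' : j + 1 ≤ p := by omega
        simp only [h', if_true]; exact hc.notr j h
      · have h' : ¬ (j + 1 ≤ p) := by omega
        simp only [h', if_false]; exact ⟨hx, hy⟩
    · intro i j hi hj hij
      by_cases h : i ≤ p <;> by_cases h' : j ≤ p
      · simp only [h, h', if_true] at hij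
        exact hc.inj i j h h' hij
      · simp only [h, h', if_true, if_false] at hij
        exact absurd hij (hex i h)
      · simp only [h, h', if_true, if_false] at hij
        exact absurd hij.symm (hex j h')
      · omega
  · have h' : ¬ (p + 1 ≤ p) := by omega
    simp only [h', if_false]

theorem reach_elem {L : Finset ℕ} {z : W → W → ℕ} {x y : W} (hNE : NE L z x y)
    (h2 : ∀ m, Ok L z m → ∀ ρ, (ρ = x ∨ ρ = y) → 2 ≤ (L.filter fun c => m c ρ = ρ).card)
    {m : ℕ → W → W} (hm : Ok L z m) {u v : W} (hu : Reach L m x y u) (hv : Reach L m x y v)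
    {α : ℕ} (hα : α ∈ L) (hαu : m α u = u) (hαv : m α v = v) : u = v := by
  by_contra huv
  have hE := elem hNE h2
  have key : ∀ β ∈ L, ∀ u v, u ≠ v → (u = x ∨ u = y) → Reach L m x y v → m β u = u →
      m β v = v → False := by
    rintro β hβ u v huv hu ⟨p, b, c, r, hc, rfl⟩ h3 h4
    exact hE p m hm b c r hc β hβ u
      (by rcases hu with h | h; exact Or.inl h; exact Or.inr (Or.inl h)) huv h3 h4
  have hur : ¬ (u = x ∨ u = y) := fun h => key α hα u v huv h hv hαu hαv
  have hvr : ¬ (v = x ∨ v = y) := fun h => key α hα v u (Ne.symm huv) h hu hαv hαu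
  obtain ⟨p, b, c, r, hc, rfl⟩ := hu
  obtain ⟨p', b', c', r', hc', rfl⟩ := hv
  -- an unused colour at a root
  obtain ⟨ρ, γ, hρ, hγ, hγρ, hγ0, hγ0'⟩ : ∃ ρ γ, (ρ = x ∨ ρ = y) ∧ γ ∈ L ∧ m γ ρ = ρ ∧
      c 0 ≠ γ ∧ c' 0 ≠ γ := by
    by_contra hno
    push Not at hno
    have hx := h2 m hm x (Or.inl rfl)
    have hy := h2 m hm y (Or.inr rfl)
    have hsub : ∀ ρ, (ρ = x ∨ ρ = y) → (L.filter fun c => m c ρ = ρ) ⊆ {c 0, c' 0} := by
      intro ρ hρ γ hγ
      rw [mem_filter] at hγ
      rw [mem_insert, mem_singleton]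
      by_cases h : c 0 = γ
      · exact Or.inl h.symm
      · exact Or.inr (hno ρ γ hρ hγ.1 hγ.2 h).symm
    have hcard : ({c 0, c' 0} : Finset ℕ).card ≤ 2 := Finset.card_le_two
    have e1 := Finset.eq_of_subset_of_card_le (hsub x (Or.inl rfl)) (hcard.trans hx)
    have e2 := Finset.eq_of_subset_of_card_le (hsub y (Or.inr rfl)) (hcard.trans hy)
    have h3 : c 0 ∈ L.filter fun c => m c x = x := by rw [e1]; simp
    have h4 : c 0 ∈ L.filter fun c => m c y = y := by rw [e2]; simp
    rw [mem_filter] at h3 h4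
    exact hNE m hm (c 0) h3.1 h3.2 h4.2
  have hroot : ∀ p b c r, Ch L m x y p b c r → c 0 ≠ γ → ∀ j < p, c j ≠ γ := by
    intro p b c r hc h0 j hj h
    rcases j with _ | j
    · exact h0 h
    · have h3 := hc.miss (j + 1) hj
      rw [h] at h3
      refine key γ hγ ρ (b (j + 1)) ?_ hρ ⟨j + 1, b, c, r, hc.pre hj.le, rfl⟩ hγρ h3
      have h4 := hc.notr j (by omega)
      rcases hρ with h | h
      · rw [h]; exact h4.1.symm
      · rw [h]; exact h4.2.symm
  have hρu : ρ ≠ b p := by
    intro h
    apply hur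
    rw [← h]; exact hρ
  have hρv : ρ ≠ b' p' := by
    intro h
    apply hvr
    rw [← h]; exact hρ
  obtain ⟨S, hρS, hSγ, hSα, hends⟩ := chain_exists (m γ) (m α) (hm.1 γ) (hm.1 α) ρ hγρ
  have h5 := lemB (hE p) hm hc hγ hα hρ hγρ (hroot p b c r hc hγ0) hαu hρu hρS hSγ hSα
  have h6 := lemB (hE p') hm hc' hγ hα hρ hγρ (hroot p' b' c' r' hc' hγ0') hαv hρv hρS hSγ hSα
  exact huv (hends _ h5 _ h6 (Ne.symm hρu) (Ne.symm hρv) (Or.inr hαu) (Or.inr hαv))

/-- **The inequalities for the degrees.** -/
theorem count {L : Finset ℕ} {z : W → W → ℕ} {x y : W} (hNE : NE L z x y)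
    {m : ℕ → W → W} (hm : Ok L z m)
    (hdx : (∑ w ∈ univ.erase x, z x w) + 2 ≤ L.card)
    (hdy : (∑ w ∈ univ.erase y, z y w) + 2 ≤ L.card) :
    ∃ R : Finset W, x ∈ R ∧ y ∈ R ∧ ∀ ρ, (ρ = x ∨ ρ = y) →
      ∑ w ∈ R.erase ρ, (L.card - ∑ w' ∈ univ.erase w, z w w') ≤ ∑ w ∈ R.erase ρ, z ρ w := by
  classical
  have hmis : ∀ m, Ok L z m → ∀ v, (L.filter fun c => m c v = v).card +
      ∑ w ∈ univ.erase v, z v w = L.card := by
    intro m hm v
    rw [← missing_add L m v]
    congr 1
    refine Finset.sum_congr rfl fun w hw => ?_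
    rw [hm.2 v w (Finset.ne_of_mem_erase hw).symm]
  have h2 : ∀ m, Ok L z m → ∀ ρ, (ρ = x ∨ ρ = y) →
      2 ≤ (L.filter fun c => m c ρ = ρ).card := by
    rintro m hm ρ (rfl | rfl)
    · have := hmis m hm ρ; omega
    · have := hmis m hm ρ; omega
  refine ⟨univ.filter fun v => Reach L m x y v, ?_, ?_, ?_⟩
  · simp only [mem_filter, mem_univ, true_and]; exact reach_root (Or.inl rfl)
  · simp only [mem_filter, mem_univ, true_and]; exact reach_root (Or.inr rfl)
  intro ρ hρ
  set R : Finset W := univ.filter fun v => Reach L m x y v with hR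
  have e1 : ∑ w ∈ R.erase ρ, (L.card - ∑ w' ∈ univ.erase w, z w w') =
      ((R.erase ρ).biUnion fun w => L.filter fun c => m c w = w).card := by
    rw [Finset.card_biUnion]
    · refine Finset.sum_congr rfl fun w _ => ?_
      have := hmis m hm w
      omega
    · intro u hu v hv huv
      rw [Function.onFun, Finset.disjoint_left]
      intro α h3 h4
      rw [mem_filter] at h3 h4
      have hu' := (mem_filter.1 (Finset.mem_of_mem_erase hu)).2
      have hv' := (mem_filter.1 (Finset.mem_of_mem_erase hv)).2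
      exact huv (reach_elem hNE h2 hm hu' hv' h3.1 h3.2 h4.2)
  have e2 : ∑ w ∈ R.erase ρ, z ρ w = (L.filter fun c => m c ρ ∈ R.erase ρ).card := by
    rw [Finset.card_eq_sum_card_fiberwise (f := fun c => m c ρ) (t := R.erase ρ)]
    · refine Finset.sum_congr rfl fun w hw => ?_
      rw [← hm.2 ρ w (Finset.ne_of_mem_erase hw).symm, mu_eq_card]
      congr 1
      ext c
      simp only [mem_filter]
      constructor
      · rintro ⟨h3, h4⟩
        exact ⟨⟨h3, by rw [h4]; exact hw⟩, h4⟩
      · rintro ⟨⟨h3, -⟩, h4⟩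
        exact ⟨h3, h4⟩
    · intro c hc
      exact (mem_filter.1 hc).2
  rw [e1, e2]
  apply Finset.card_le_card
  intro α hα
  rw [mem_biUnion] at hα
  obtain ⟨w, hw, hα⟩ := hα
  rw [mem_filter] at hα ⊢
  have hw' := (mem_filter.1 (Finset.mem_of_mem_erase hw)).2
  refine ⟨hα.1, ?_⟩
  rw [mem_erase]
  refine ⟨?_, ?_⟩
  · intro h
    exact Finset.ne_of_mem_erase hw (reach_elem hNE h2 hm (reach_root hρ) hw' hα.1 h hα.2).symm
  · rw [hR, mem_filter]
    exact ⟨mem_univ _, reach_closed hw' hα.1 hα.2 hρ⟩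

/-- one more edge between `x` and `y` -/
def addE (z : W → W → ℕ) (x y : W) : W → W → ℕ :=
  fun u w => z u w + if (u = x ∧ w = y) ∨ (u = y ∧ w = x) then 1 else 0

theorem ext_or {L : Finset ℕ} {z : W → W → ℕ} {x y : W} (hxy : x ≠ y) :
    (∃ m', Ok L (addE z x y) m') ∨ NE L z x y := by
  by_cases h : NE L z x y
  · exact Or.inr h
  · left
    unfold NE at h
    push Not at h
    obtain ⟨m1, hm1, c, hc, h1, h2, -⟩ := h
    obtain ⟨m', h3, -, h4⟩ := add_edge L m1 hm1.1 c hc x y hxy h1 h2
    exact ⟨m', h3, fun u w huw => by rw [h4 u w huw, hm1.2 u w huw]; rfl⟩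

theorem side {L : Finset ℕ} {z : W → W → ℕ} {x y : W} {R : Finset W} (Δ : ℕ)
    (A T : W → W → Prop) [DecidableRel A] [DecidableRel T] (hx : x ∈ R) (hTx : T x x)
    (hTxy : ¬ T x y)
    (hz : ∀ w, w ≠ x → z x w ≤ (if A x w then 1 else 0) + if T x w then Δ else 0)
    (hzxy : z x y = 0) (g : W → ℕ)
    (hg : ∀ w ∈ R.erase x, g w ≤ L.card - ∑ w' ∈ univ.erase w, z w w')
    (hcount : ∑ w ∈ R.erase x, (L.card - ∑ w' ∈ univ.erase w, z w w') ≤
      ∑ w ∈ R.erase x, z x w) :
    ∑ w ∈ R.erase x, g w ≤ ((R.erase x).filter fun w => A x w ∧ w ≠ y).card +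
      Δ * ((R.filter fun w => T x w).card - 1) := by
  refine (Finset.sum_le_sum hg).trans (hcount.trans ?_)
  have h1 : ∑ w ∈ R.erase x, z x w ≤ ∑ w ∈ R.erase x,
      ((if A x w ∧ w ≠ y then 1 else 0) + if T x w then Δ else 0) := by
    refine Finset.sum_le_sum fun w hw => ?_
    have hwx := Finset.ne_of_mem_erase hw
    by_cases hwy : w = y
    · subst hwy
      rw [hzxy]; omega
    · have := hz w hwx
      simpa [hwy] using this
  refine h1.trans ?_
  rw [Finset.sum_add_distrib, ← Finset.card_filter]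
  apply Nat.add_le_add_left
  rw [← Finset.sum_filter, Finset.sum_const, smul_eq_mul, mul_comm]
  apply Nat.mul_le_mul_left
  have h2 : (R.erase x).filter (fun w => T x w) = (R.filter fun w => T x w).erase x := by
    ext w
    simp only [mem_filter, mem_erase]
    tauto
  rw [h2, Finset.card_erase_of_mem (mem_filter.2 ⟨hx, hTx⟩)]

theorem ar1 (k a b nx ny D : ℕ) (hD : 2 ≤ D) (hab : a + b ≤ k) (hnx : nx ≤ k) (hny : ny ≤ k)
    (h1 : (k + 1) * D + 1 ≤ nx + D * a) (h2 : (k + 1) * D + 1 ≤ ny + D * b) : False := by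
  obtain ⟨e, rfl⟩ := Nat.exists_eq_add_of_le hab
  obtain ⟨d, rfl⟩ := Nat.exists_eq_add_of_le hD
  nlinarith [Nat.zero_le (b * d), Nat.zero_le (e * d), Nat.zero_le (a * d)]

theorem ar2 (k a b nx ny q s D : ℕ) (hD : 1 ≤ D) (hab : a + b ≤ k) (hq : q ≤ 3) (hs : s ≤ k)
    (hnn : s + q = nx + ny)
    (h1 : (k + 1) * D + 1 ≤ nx + D * a) (h2 : (k + 1) * D + 1 ≤ ny + D * b) : False := by
  obtain ⟨e, rfl⟩ := Nat.exists_eq_add_of_le hab
  obtain ⟨d, rfl⟩ := Nat.exists_eq_add_of_le hD
  nlinarith [Nat.zero_le (b * d), Nat.zero_le (e * d), Nat.zero_le (a * d)]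

theorem ar3 (k a b nx D : ℕ) (hD : 1 ≤ D) (hab : a + b ≤ k) (hnx : nx ≤ k)
    (h1 : (k + 1) * D + 1 + a ≤ nx + D * a) : False := by
  obtain ⟨e, rfl⟩ := Nat.exists_eq_add_of_le hab
  obtain ⟨d, rfl⟩ := Nat.exists_eq_add_of_le hD
  nlinarith [Nat.zero_le (b * d), Nat.zero_le (e * d), Nat.zero_le (a * d)]

theorem ar4 (k a b nx D : ℕ) (hD : 1 ≤ D) (hab : a + b ≤ k) (hnx : nx ≤ k - a + 1)
    (h1 : (k + 1) * D + 1 ≤ nx + D * a) : False := by
  obtain ⟨e, rfl⟩ := Nat.exists_eq_add_of_le hab
  obtain ⟨d, rfl⟩ := Nat.exists_eq_add_of_le hD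
  have h3 : a + b + e - a = b + e := by omega
  rw [h3] at hnx
  nlinarith [Nat.zero_le (b * d), Nat.zero_le (e * d), Nat.zero_le (a * d)]

/-- **Adding an edge between two orbits.** `A` is the adjacency relation of `G'` and `T` the relation
of being in the same orbit. -/
theorem ext_pair {L : Finset ℕ} {z : W → W → ℕ} {m : ℕ → W → W} (hm : Ok L z m) {x y : W}
    (hxy : x ≠ y) (Δ : ℕ) (hΔ : 1 ≤ Δ) (A T : W → W → Prop) [DecidableRel A] [DecidableRel T]
    (hTr : ∀ u, T u u) (hTs : ∀ u v, T u v → T v u) (hTt : ∀ u v w, T u v → T v w → T u w)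
    (hTxy : ¬ T x y)
    (hz : ∀ u w, w ≠ u → z u w ≤ (if A u w then 1 else 0) + if T u w then Δ else 0)
    (hzxy : z x y = 0) (hzyx : z y x = 0)
    (hsl : ∀ u, (∑ w ∈ univ.erase u, z u w) + Δ ≤ L.card)
    (hslx : (∑ w ∈ univ.erase x, z x w) + (Δ + 1) ≤ L.card)
    (hsly : (∑ w ∈ univ.erase y, z y w) + (Δ + 1) ≤ L.card)
    (hcase : 2 ≤ Δ ∨ (univ.filter fun w => A x w ∧ A y w).card ≤ 3 ∨
      (∀ u, T x u → (∑ w ∈ univ.erase u, z u w) + (Δ + 1) ≤ L.card) ∨
      (∀ u, T y u → (∑ w ∈ univ.erase u, z u w) + (Δ + 1) ≤ L.card) ∨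
      (univ.filter fun w => A x w ∧ T x w).card ≤ 1 ∨
      (univ.filter fun w => A y w ∧ T y w).card ≤ 1) :
    ∃ m', Ok L (addE z x y) m' := by
  classical
  rcases ext_or (L := L) (z := z) hxy with h | hNE
  · exact h
  exfalso
  obtain ⟨R, hx, hy, hR⟩ := count hNE hm (by omega) (by omega)
  have hTyx : ¬ T y x := fun h => hTxy (hTs _ _ h)
  -- numbers
  obtain ⟨k, hk⟩ : ∃ k, R.card = k + 2 := by
    have h1 : ({x, y} : Finset W) ⊆ R := by
      intro w hw
      rw [mem_insert, mem_singleton] at hw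
      rcases hw with h | h
      · rw [h]; exact hx
      · rw [h]; exact hy
    have h2 := Finset.card_le_card h1
    rw [Finset.card_pair hxy] at h2
    exact ⟨R.card - 2, by omega⟩
  obtain ⟨a, ha⟩ : ∃ a, (R.filter fun w => T x w).card = a + 1 := by
    have : 0 < (R.filter fun w => T x w).card :=
      Finset.card_pos.2 ⟨x, mem_filter.2 ⟨hx, hTr x⟩⟩
    exact ⟨_, (Nat.succ_pred_eq_of_pos this).symm⟩
  obtain ⟨b, hb⟩ : ∃ b, (R.filter fun w => T y w).card = b + 1 := by
    have : 0 < (R.filter fun w => T y w).card :=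
      Finset.card_pos.2 ⟨y, mem_filter.2 ⟨hy, hTr y⟩⟩
    exact ⟨_, (Nat.succ_pred_eq_of_pos this).symm⟩
  have hab : a + b ≤ k := by
    have hd : Disjoint (R.filter fun w => T x w) (R.filter fun w => T y w) := by
      rw [Finset.disjoint_left]
      intro w h1 h2
      rw [mem_filter] at h1 h2
      exact hTxy (hTt _ _ _ h1.2 (hTs _ _ h2.2))
    have h1 := Finset.card_union_of_disjoint hd
    have h2 : (R.filter fun w => T x w) ∪ (R.filter fun w => T y w) ⊆ R :=
      Finset.union_subset (Finset.filter_subset _ _) (Finset.filter_subset _ _)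
    have h3 := Finset.card_le_card h2
    omega
  set Nx := (R.erase x).filter fun w => A x w ∧ w ≠ y with hNx
  set Ny := (R.erase y).filter fun w => A y w ∧ w ≠ x with hNy
  have hNxs : Nx ⊆ (R.erase x).erase y := by
    intro w hw
    rw [hNx, mem_filter] at hw
    rw [mem_erase]
    exact ⟨hw.2.2, hw.1⟩
  have hNys : Ny ⊆ (R.erase x).erase y := by
    intro w hw
    rw [hNy, mem_filter, mem_erase] at hw
    rw [mem_erase, mem_erase]
    exact ⟨hw.1.1, hw.2.2, hw.1.2⟩
  have hk' : ((R.erase x).erase y).card = k := by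
    rw [Finset.card_erase_of_mem (mem_erase.2 ⟨hxy.symm, hy⟩), Finset.card_erase_of_mem hx]
    omega
  have hkx : (R.erase x).card = k + 1 := by rw [Finset.card_erase_of_mem hx]; omega
  have hky : (R.erase y).card = k + 1 := by rw [Finset.card_erase_of_mem hy]; omega
  have hnx : Nx.card ≤ k := hk' ▸ Finset.card_le_card hNxs
  have hny : Ny.card ≤ k := hk' ▸ Finset.card_le_card hNys
  -- the main inequalities
  have hsub : ∀ u, Δ ≤ L.card - ∑ w ∈ univ.erase u, z u w := fun u => by
    have := hsl u; omega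
  have h1 : (k + 1) * Δ + 1 ≤ Nx.card + Δ * a := by
    have h3 := side Δ A T hx (hTr x) hTxy (fun w hw => hz x w hw) hzxy
      (fun w => Δ + if w = y then 1 else 0) (by
        intro w hw
        by_cases hwy : w = y
        · subst hwy
          simp only [if_true]; omega
        · simp only [hwy, if_false]
          exact hsub w) (hR x (Or.inl rfl))
    rw [Finset.sum_add_distrib, Finset.sum_const, smul_eq_mul, hkx, Finset.sum_ite_eq',
      if_pos (mem_erase.2 ⟨hxy.symm, hy⟩), ha, Nat.add_sub_cancel] at h3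
    exact h3
  have h2 : (k + 1) * Δ + 1 ≤ Ny.card + Δ * b := by
    have h3 := side Δ A T hy (hTr y) hTyx (fun w hw => hz y w hw) hzyx
      (fun w => Δ + if w = x then 1 else 0) (by
        intro w hw
        by_cases hwx : w = x
        · subst hwx
          simp only [if_true]; omega
        · simp only [hwx, if_false]
          exact hsub w) (hR y (Or.inr rfl))
    rw [Finset.sum_add_distrib, Finset.sum_const, smul_eq_mul, hky, Finset.sum_ite_eq',
      if_pos (mem_erase.2 ⟨hxy, hx⟩), hb, Nat.add_sub_cancel] at h3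
    exact h3
  rcases hcase with hc | hc | hc | hc | hc | hc
  · exact ar1 k a b _ _ Δ hc hab hnx hny h1 h2
  · have h3 : (Nx ∩ Ny).card ≤ 3 := by
      refine le_trans (Finset.card_le_card ?_) hc
      intro w hw
      rw [mem_inter, hNx, hNy, mem_filter, mem_filter] at hw
      rw [mem_filter]
      exact ⟨mem_univ _, hw.1.2.1, hw.2.2.1⟩
    have h4 := Finset.card_union_add_card_inter Nx Ny
    have h5 : (Nx ∪ Ny).card ≤ k := hk' ▸ Finset.card_le_card (Finset.union_subset hNxs hNys)
    exact ar2 k a b _ _ _ _ Δ hΔ hab h3 h5 h4 h1 h2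
  · have h3 := side Δ A T hx (hTr x) hTxy (fun w hw => hz x w hw) hzxy
      (fun w => Δ + (if w = y then 1 else 0) + if T x w then 1 else 0) (by
        intro w hw
        by_cases hwy : w = y
        · subst hwy
          simp only [if_true, hTxy, if_false]; omega
        · by_cases hwT : T x w
          · have := hc w hwT
            simp only [hwy, hwT, if_true, if_false]; omega
          · simp only [hwy, hwT, if_false]
            exact hsub w) (hR x (Or.inl rfl))
    have e : ∑ w ∈ R.erase x, (if T x w then 1 else 0) = a := by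
      rw [← Finset.card_filter]
      have h2 : (R.erase x).filter (fun w => T x w) = (R.filter fun w => T x w).erase x := by
        ext w
        simp only [mem_filter, mem_erase]
        tauto
      rw [h2, Finset.card_erase_of_mem (mem_filter.2 ⟨hx, hTr x⟩), ha]
      rfl
    rw [Finset.sum_add_distrib, Finset.sum_add_distrib, e, Finset.sum_const, smul_eq_mul, hkx,
      Finset.sum_ite_eq', if_pos (mem_erase.2 ⟨hxy.symm, hy⟩), ha, Nat.add_sub_cancel] at h3
    exact ar3 k a b _ Δ hΔ hab hnx h3
  · have h3 := side Δ A T hy (hTr y) hTyx (fun w hw => hz y w hw) hzyx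
      (fun w => Δ + (if w = x then 1 else 0) + if T y w then 1 else 0) (by
        intro w hw
        by_cases hwx : w = x
        · subst hwx
          simp only [if_true, hTyx, if_false]; omega
        · by_cases hwT : T y w
          · have := hc w hwT
            simp only [hwx, hwT, if_true, if_false]; omega
          · simp only [hwx, hwT, if_false]
            exact hsub w) (hR y (Or.inr rfl))
    have e : ∑ w ∈ R.erase y, (if T y w then 1 else 0) = b := by
      rw [← Finset.card_filter]
      have h2 : (R.erase y).filter (fun w => T y w) = (R.filter fun w => T y w).erase y := by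
        ext w
        simp only [mem_filter, mem_erase]
        tauto
      rw [h2, Finset.card_erase_of_mem (mem_filter.2 ⟨hy, hTr y⟩), hb]
      rfl
    rw [Finset.sum_add_distrib, Finset.sum_add_distrib, e, Finset.sum_const, smul_eq_mul, hky,
      Finset.sum_ite_eq', if_pos (mem_erase.2 ⟨hxy, hx⟩), hb, Nat.add_sub_cancel] at h3
    exact ar3 k b a _ Δ hΔ (by omega) hny h3
  · have h3 : Nx.card ≤ k - a + 1 := by
      have h4 : Nx ⊆ (univ.filter fun w => A x w ∧ T x w) ∪
          (((R.erase x).erase y).filter fun w => ¬ T x w) := by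
        intro w hw
        have hw' := hNxs hw
        rw [hNx, mem_filter] at hw
        rw [mem_union, mem_filter, mem_filter]
        by_cases h : T x w
        · exact Or.inl ⟨mem_univ _, hw.2.1, h⟩
        · exact Or.inr ⟨hw', h⟩
      have h5 : (((R.erase x).erase y).filter fun w => ¬ T x w).card = k - a := by
        have h6 := Finset.card_filter_add_card_filter_not (s := (R.erase x).erase y)
          (fun w => T x w)
        have h7 : ((R.erase x).erase y).filter (fun w => T x w) =
            (R.filter fun w => T x w).erase x := by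
          ext w
          simp only [mem_filter, mem_erase]
          constructor
          · rintro ⟨⟨-, h8, h9⟩, h10⟩; exact ⟨h8, h9, h10⟩
          · rintro ⟨h8, h9, h10⟩
            exact ⟨⟨fun h => hTxy (h ▸ h10), h8, h9⟩, h10⟩
        rw [h7, Finset.card_erase_of_mem (mem_filter.2 ⟨hx, hTr x⟩), ha, hk'] at h6
        omega
      have h6 := (Finset.card_le_card h4).trans (Finset.card_union_le _ _)
      omega
    exact ar4 k a b _ Δ hΔ hab h3 h1
  · have h3 : Ny.card ≤ k - b + 1 := by
      have h4 : Ny ⊆ (univ.filter fun w => A y w ∧ T y w) ∪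
          (((R.erase x).erase y).filter fun w => ¬ T y w) := by
        intro w hw
        have hw' := hNys hw
        rw [hNy, mem_filter] at hw
        rw [mem_union, mem_filter, mem_filter]
        by_cases h : T y w
        · exact Or.inl ⟨mem_univ _, hw.2.1, h⟩
        · exact Or.inr ⟨hw', h⟩
      have h5 : (((R.erase x).erase y).filter fun w => ¬ T y w).card = k - b := by
        have h6 := Finset.card_filter_add_card_filter_not (s := (R.erase x).erase y)
          (fun w => T y w)
        have h7 : ((R.erase x).erase y).filter (fun w => T y w) =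
            (R.filter fun w => T y w).erase y := by
          ext w
          simp only [mem_filter, mem_erase]
          constructor
          · rintro ⟨⟨h8, -, h9⟩, h10⟩; exact ⟨h8, h9, h10⟩
          · rintro ⟨h8, h9, h10⟩
            exact ⟨⟨h8, fun h => hTyx (h ▸ h10), h9⟩, h10⟩
        rw [h7, Finset.card_erase_of_mem (mem_filter.2 ⟨hy, hTr y⟩), hb, hk'] at h6
        omega
      have h6 := (Finset.card_le_card h4).trans (Finset.card_union_le _ _)
      omega
    exact ar4 k b a _ Δ hΔ (by omega) h3 h2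

end Pool.Agent.K7.H15.WR
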