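import Pool.Agent.K7.H15.WR.Chain

set_option autoImplicit false

/-!
# Double fans

Let `m` be an edge colouring of a multigraph without a further edge `x y`, and suppose that no
colouring can be extended to `x y`. The set of the vertices which can be reached from `x` and `y` by
edges at `x` or `y` whose colours are missing at vertices reached before is elementary: no colour is
missing at two of its vertices. This is a special case of a theorem of Tashkinov.
-/

namespace Pool.Agent.K7.H15.WR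

open Finset Pool.Agent.MPd14d18

section basic

variable {W : Type*} [DecidableEq W]

/-- `m` is an edge colouring with colours in `L` of the multigraph with multiplicities `z` -/
def Ok (L : Finset ℕ) (z : W → W → ℕ) (m : ℕ → W → W) : Prop :=
  (∀ c v, m c (m c v) = v) ∧ ∀ u w, u ≠ w → mu L m u w = z u w

/-- exchange the colours `i` and `j` at the vertices in `S` -/
def sw (m : ℕ → W → W) (i j : ℕ) (S : Finset W) : ℕ → W → W :=
  fun c v => if v ∈ S then m (Equiv.swap i j c) v else m c v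

theorem sw_out {m : ℕ → W → W} {i j : ℕ} {S : Finset W} {v : W} (hv : v ∉ S) (c : ℕ) :
    sw m i j S c v = m c v := if_neg hv

theorem sw_left {m : ℕ → W → W} {i j : ℕ} {S : Finset W} {v : W} (hv : v ∈ S) :
    sw m i j S i v = m j v := by
  rw [sw, if_pos hv, Equiv.swap_apply_left]

theorem sw_right {m : ℕ → W → W} {i j : ℕ} {S : Finset W} {v : W} (hv : v ∈ S) :
    sw m i j S j v = m i v := by
  rw [sw, if_pos hv, Equiv.swap_apply_right]

theorem sw_ne {m : ℕ → W → W} {i j : ℕ} {S : Finset W} {c : ℕ} (hi : c ≠ i) (hj : c ≠ j) :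
    sw m i j S c = m c := by
  funext v
  rw [sw, Equiv.swap_apply_of_ne_of_ne hi hj, ite_self]

theorem Ok.sw {L : Finset ℕ} {z : W → W → ℕ} {m : ℕ → W → W} (h : Ok L z m) {i j : ℕ}
    (hi : i ∈ L) (hj : j ∈ L) {S : Finset W} (hSi : ∀ w ∈ S, m i w ∈ S)
    (hSj : ∀ w ∈ S, m j w ∈ S) : Ok L z (sw m i j S) := by
  obtain ⟨h1, -, h3⟩ := kempe L m h.1 i j hi hj S hSi hSj (WR.sw m i j S) (fun _ _ => rfl)
  exact ⟨h1, fun u w huw => (h3 u w).trans (h.2 u w huw)⟩

/-- no colouring can be extended to one more edge between `x` and `y` -/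
def NE (L : Finset ℕ) (z : W → W → ℕ) (x y : W) : Prop :=
  ∀ m, Ok L z m → ∀ c ∈ L, m c x = x → m c y = y → False

/-- chains: `b (j + 1)` is joined to the root `r j` by an edge with the colour `c j`, which is
missing at `b j` -/
structure Ch (L : Finset ℕ) (m : ℕ → W → W) (x y : W) (p : ℕ) (b : ℕ → W) (c : ℕ → ℕ)
    (r : ℕ → W) : Prop where
  b0 : b 0 = x ∨ b 0 = y
  cL : ∀ j < p, c j ∈ L
  miss : ∀ j < p, m (c j) (b j) = b j
  root : ∀ j < p, r j = x ∨ r j = y
  edge : ∀ j < p, m (c j) (r j) = b (j + 1)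
  notr : ∀ j < p, b (j + 1) ≠ x ∧ b (j + 1) ≠ y
  inj : ∀ i j, i ≤ p → j ≤ p → b i = b j → i = j

theorem Ch.pre {L : Finset ℕ} {m : ℕ → W → W} {x y : W} {p : ℕ} {b : ℕ → W} {c : ℕ → ℕ}
    {r : ℕ → W} (h : Ch L m x y p b c r) {q : ℕ} (hq : q ≤ p) : Ch L m x y q b c r where
  b0 := h.b0
  cL j hj := h.cL j (by omega)
  miss j hj := h.miss j (by omega)
  root j hj := h.root j (by omega)
  edge j hj := h.edge j (by omega)
  notr j hj := h.notr j (by omega)
  inj i j hi hj := h.inj i j (by omega) (by omega)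

theorem Ch.zero {L : Finset ℕ} {m : ℕ → W → W} {x y u : W} (hu : u = x ∨ u = y) :
    Ch L m x y 0 (fun _ => u) (fun _ => 0) (fun _ => x) where
  b0 := hu
  cL j hj := absurd hj (by omega)
  miss j hj := absurd hj (by omega)
  root j hj := absurd hj (by omega)
  edge j hj := absurd hj (by omega)
  notr j hj := absurd hj (by omega)
  inj i j hi hj _ := by omega

/-- `u` is a root or one of the first `p` vertices of the chain -/
def Bef (x y : W) (b : ℕ → W) (p : ℕ) (u : W) : Prop := u = x ∨ u = y ∨ ∃ i < p, u = b i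

/-- the last vertex of a chain with `p` edges has no missing colour in common with other vertices -/
def Elem (L : Finset ℕ) (z : W → W → ℕ) (x y : W) (p : ℕ) : Prop :=
  ∀ m, Ok L z m → ∀ b c r, Ch L m x y p b c r → ∀ α ∈ L, ∀ u, Bef x y b p u → u ≠ b p →
    m α u = u → m α (b p) = b p → False

theorem elem_zero {L : Finset ℕ} {z : W → W → ℕ} {x y : W} (h : NE L z x y) :
    Elem L z x y 0 := by
  intro m hm b c r hc α hα u hu hub h1 h2
  rcases hc.b0 with h3 | h3 <;> rcases hu with h4 | h4 | ⟨i, hi, -⟩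
  · exact hub (h4.trans h3.symm)
  · rw [h3] at h2; rw [h4] at h1; exact h m hm α hα h2 h1
  · omega
  · rw [h3] at h2; rw [h4] at h1; exact h m hm α hα h1 h2
  · exact hub (h4.trans h3.symm)
  · omega

/-- all pairs -/
theorem elem_all {L : Finset ℕ} {z : W → W → ℕ} {x y : W} {p : ℕ}
    (hE : ∀ q ≤ p, Elem L z x y q) {m : ℕ → W → W} (hm : Ok L z m) {b : ℕ → W} {c : ℕ → ℕ}
    {r : ℕ → W} (hc : Ch L m x y p b c r) {α : ℕ} (hα : α ∈ L) {u v : W}
    (hu : Bef x y b (p + 1) u) (hv : Bef x y b (p + 1) v) (h1 : m α u = u) (h2 : m α v = v) :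
    u = v := by
  by_contra huv
  have key : ∀ u v, u ≠ v → m α u = u → m α v = v → (u = x ∨ u = y) →
      Bef x y b (p + 1) v → False := by
    intro u v huv h1 h2 hu hv
    have hroots : (v = x ∨ v = y) → False := by
      intro hv
      exact hE 0 (Nat.zero_le _) m hm _ _ _ (Ch.zero hv) α hα u
        (by rcases hu with h | h; exact Or.inl h; exact Or.inr (Or.inl h)) huv h1 h2
    rcases hv with hv | hv | ⟨i, hi, hv⟩
    · exact hroots (Or.inl hv)
    · exact hroots (Or.inr hv)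
    · rw [hv] at h2 huv
      exact hE i (by omega) m hm b c r (hc.pre (by omega)) α hα u
        (by rcases hu with h | h; exact Or.inl h; exact Or.inr (Or.inl h)) huv h1 h2
  rcases hu with hu' | hu' | ⟨i, hi, hu'⟩
  · exact key u v huv h1 h2 (Or.inl hu') hv
  · exact key u v huv h1 h2 (Or.inr hu') hv
  · rcases hv with hv' | hv' | ⟨j, hj, hv'⟩
    · exact key v u (Ne.symm huv) h2 h1 (Or.inl hv') (Or.inr (Or.inr ⟨i, hi, hu'⟩))
    · exact key v u (Ne.symm huv) h2 h1 (Or.inr hv') (Or.inr (Or.inr ⟨i, hi, hu'⟩))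
    · rcases lt_trichotomy i j with hij | hij | hij
      · rw [hv'] at h2 huv
        exact hE j (by omega) m hm b c r (hc.pre (by omega)) α hα u
          (Or.inr (Or.inr ⟨i, hij, hu'⟩)) huv h1 h2
      · apply huv; rw [hu', hv', hij]
      · rw [hu'] at h1 huv
        exact hE i (by omega) m hm b c r (hc.pre (by omega)) α hα v
          (Or.inr (Or.inr ⟨j, hij, hv'⟩)) (Ne.symm huv) h2 h1

theorem lemB {L : Finset ℕ} {z : W → W → ℕ} {x y : W} {p : ℕ} (hE : Elem L z x y p)
    {m : ℕ → W → W} (hm : Ok L z m) {b : ℕ → W} {c : ℕ → ℕ} {r : ℕ → W}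
    (hc : Ch L m x y p b c r) {γ α : ℕ} (hγ : γ ∈ L) (hα : α ∈ L) {ρ : W}
    (hρ : ρ = x ∨ ρ = y) (hγρ : m γ ρ = ρ) (hγc : ∀ j < p, c j ≠ γ)
    (hαp : m α (b p) = b p) (hne : ρ ≠ b p) {S : Finset W} (hρS : ρ ∈ S)
    (hSγ : ∀ w ∈ S, m γ w ∈ S) (hSα : ∀ w ∈ S, m α w ∈ S) : b p ∈ S := by
  by_contra hbS
  have hρB : Bef x y b p ρ := by
    rcases hρ with h | h
    · exact Or.inl h
    · exact Or.inr (Or.inl h)
  have hcα : ∀ j < p, c j ≠ α := by
    intro j hj h
    have h1 := hc.miss j hj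
    rw [h] at h1
    refine hE m hm b c r hc α hα (b j) (Or.inr (Or.inr ⟨j, hj, rfl⟩)) ?_ h1 hαp
    intro h2
    have := hc.inj j p (by omega) le_rfl h2
    omega
  have hm' := hm.sw hγ hα hSγ hSα
  have hsame : ∀ j < p, sw m γ α S (c j) = m (c j) := fun j hj => sw_ne (hγc j hj) (hcα j hj)
  have hc' : Ch L (sw m γ α S) x y p b c r :=
    { b0 := hc.b0
      cL := hc.cL
      miss := fun j hj => by rw [hsame j hj]; exact hc.miss j hj
      root := hc.root
      edge := fun j hj => by rw [hsame j hj]; exact hc.edge j hj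
      notr := hc.notr
      inj := hc.inj }
  refine hE _ hm' b c r hc' α hα ρ hρB hne ?_ ?_
  · rw [sw_right hρS, hγρ]
  · rw [sw_out hbS, hαp]

end basic

section fin

variable {W : Type*} [Fintype W] [DecidableEq W]

theorem final {L : Finset ℕ} {z : W → W → ℕ} {x y : W} {p : ℕ} (hE : Elem L z x y p)
    {m : ℕ → W → W} (hm : Ok L z m) {b : ℕ → W} {c : ℕ → ℕ} {r : ℕ → W}
    (hc : Ch L m x y (p + 1) b c r) {γ : ℕ} (hγ : γ ∈ L) (hγc : ∀ j < p, c j ≠ γ)
    (hγr : m γ (r p) = r p) (hγv : m γ (b (p + 1)) = b (p + 1)) : False := by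
  have hβL := hc.cL p (by omega)
  have hβ := hc.miss p (by omega)
  have hroot := hc.root p (by omega)
  have hedge := hc.edge p (by omega)
  have hnot := hc.notr p (by omega)
  have hvr : b (p + 1) ≠ r p := by
    rcases hroot with h | h
    · rw [h]; exact hnot.1
    · rw [h]; exact hnot.2
  have hrb : r p ≠ b p := by
    intro h
    rw [h, hβ] at hedge
    have := hc.inj p (p + 1) (by omega) le_rfl hedge
    omega
  obtain ⟨S, hrS, hSγ, hSβ, hends⟩ := chain_exists (m γ) (m (c p)) (hm.1 γ) (hm.1 (c p)) (r p) hγr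
  have hbS := lemB hE hm (hc.pre (Nat.le_succ p)) hγ hβL hroot hγr hγc hβ hrb hrS hSγ hSβ
  have hvS : b (p + 1) ∈ S := by
    rw [← hedge]
    exact hSβ _ hrS
  have := hends (b p) hbS (b (p + 1)) hvS (Ne.symm hrb) hvr (Or.inr hβ) (Or.inl hγv)
  have := hc.inj p (p + 1) (by omega) le_rfl this
  omega

theorem move {L : Finset ℕ} {z : W → W → ℕ} {x y : W} {p : ℕ}
    (hE : ∀ q ≤ p, Elem L z x y q) {m : ℕ → W → W} (hm : Ok L z m) {b : ℕ → W} {c : ℕ → ℕ}
    {r : ℕ → W} (hc : Ch L m x y (p + 1) b c r) {α γ : ℕ} (hα : α ∈ L) (hγ : γ ∈ L) {u ρ : W}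
    (hu : Bef x y b (p + 1) u) (hαu : m α u = u) (hαv : m α (b (p + 1)) = b (p + 1))
    (hρ : ρ = x ∨ ρ = y) (hγρ : m γ ρ = ρ) (hγc : ∀ j ≤ p, c j ≠ γ)
    (hcond : ∀ j ≤ p, c j = α → r j = ρ ∨ r j = u) :
    ∃ m', Ok L z m' ∧ Ch L m' x y (p + 1) b c r ∧ m' γ (b (p + 1)) = b (p + 1) ∧
      m' γ ρ = ρ := by
  have hnot := hc.notr p (by omega)
  have hvρ : b (p + 1) ≠ ρ := by
    rcases hρ with h | h
    · rw [h]; exact hnot.1
    · rw [h]; exact hnot.2
  have hvu : u ≠ b (p + 1) := by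
    rcases hu with h | h | ⟨i, hi, h⟩
    · rw [h]; exact hnot.1.symm
    · rw [h]; exact hnot.2.symm
    · rw [h]; intro h1
      have := hc.inj i (p + 1) (by omega) le_rfl h1
      omega
  -- the chain which starts at the root
  obtain ⟨S, hρS, hSγ, hSα, huS, hvS⟩ : ∃ S : Finset W, ρ ∈ S ∧ (∀ w ∈ S, m γ w ∈ S) ∧
      (∀ w ∈ S, m α w ∈ S) ∧ u ∈ S ∧ b (p + 1) ∉ S := by
    by_cases huρ : u = ρ
    · refine ⟨{ρ}, mem_singleton_self _, ?_, ?_, ?_, ?_⟩
      · intro w hw
        rw [mem_singleton] at hw ⊢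
        rw [hw, hγρ]
      · intro w hw
        rw [mem_singleton] at hw ⊢
        rw [hw, ← huρ, hαu]
      · rw [huρ]; exact mem_singleton_self _
      · rw [mem_singleton]; exact hvρ
    · obtain ⟨S, hρS, hSγ, hSα, hends⟩ := chain_exists (m γ) (m α) (hm.1 γ) (hm.1 α) ρ hγρ
      have huS : u ∈ S := by
        have hroots : (u = x ∨ u = y) → u ∈ S := by
          intro h
          exact lemB (hE 0 (Nat.zero_le _)) hm (Ch.zero h) hγ hα hρ hγρ
            (fun j hj => absurd hj (by omega)) hαu (Ne.symm huρ) hρS hSγ hSα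
        rcases hu with h | h | ⟨i, hi, h⟩
        · exact hroots (Or.inl h)
        · exact hroots (Or.inr h)
        · rw [h] at hαu huρ ⊢
          exact lemB (hE i (by omega)) hm (hc.pre (by omega)) hγ hα hρ hγρ
            (fun j hj => hγc j (by omega)) hαu (Ne.symm huρ) hρS hSγ hSα
      refine ⟨S, hρS, hSγ, hSα, huS, fun hvS => ?_⟩
      exact hvu (hends u huS _ hvS huρ hvρ (Or.inr hαu) (Or.inr hαv))
  have hSγ' : ∀ w ∈ univ \ S, m γ w ∈ univ \ S := by
    intro w hw
    simp only [mem_sdiff, mem_univ, true_and] at hw ⊢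
    intro h
    apply hw
    have := hSγ _ h
    rwa [hm.1] at this
  have hSα' : ∀ w ∈ univ \ S, m α w ∈ univ \ S := by
    intro w hw
    simp only [mem_sdiff, mem_univ, true_and] at hw ⊢
    intro h
    apply hw
    have := hSα _ h
    rwa [hm.1] at this
  have hin : ∀ w, w ∈ S → ∀ e, sw m γ α (univ \ S) e w = m e w := by
    intro w hw e
    apply sw_out
    simp [hw]
  refine ⟨sw m γ α (univ \ S), hm.sw hγ hα hSγ' hSα', ?_, ?_, ?_⟩
  · refine ⟨hc.b0, hc.cL, ?_, hc.root, ?_, hc.notr, hc.inj⟩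
    · intro j hj
      have hmj := hc.miss j hj
      by_cases hcα : c j = α
      · have hbu : b j = u := by
          apply elem_all hE hm (hc.pre (Nat.le_succ p)) hα (Or.inr (Or.inr ⟨j, hj, rfl⟩)) hu _ hαu
          rw [← hcα]; exact hmj
        rw [hin (b j) (by rw [hbu]; exact huS)]
        exact hmj
      · rw [sw_ne (hγc j (by omega)) hcα]
        exact hmj
    · intro j hj
      have hej := hc.edge j hj
      by_cases hcα : c j = α
      · rw [hin (r j) (by
          rcases hcond j (by omega) hcα with h | h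
          · rw [h]; exact hρS
          · rw [h]; exact huS)]
        exact hej
      · rw [sw_ne (hγc j (by omega)) hcα]
        exact hej
  · rw [sw_left (by simp [hvS]), hαv]
  · rw [hin ρ hρS, hγρ]

/-- the theorem on chains -/
theorem elem {L : Finset ℕ} {z : W → W → ℕ} {x y : W} (hNE : NE L z x y)
    (h2 : ∀ m, Ok L z m → ∀ ρ, (ρ = x ∨ ρ = y) → 2 ≤ (L.filter fun c => m c ρ = ρ).card) :
    ∀ p, Elem L z x y p := by
  intro p
  induction p using Nat.strong_induction_on with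
  | _ p ih =>
    rcases p with _ | p
    · exact elem_zero hNE
    have hE : ∀ q ≤ p, Elem L z x y q := fun q hq => ih q (by omega)
    -- unused colours
    have hget : ∀ m, Ok L z m → ∀ b c r, Ch L m x y (p + 1) b c r → ∀ ρ, (ρ = x ∨ ρ = y) →
        ∃ γ ∈ L, m γ ρ = ρ ∧ ∀ j ≤ p, c j ≠ γ := by
      intro m hm b c r hc ρ hρ
      obtain ⟨γ, hγ, hγ0⟩ := Finset.exists_mem_ne (h2 m hm ρ hρ) (c 0)
      rw [mem_filter] at hγ
      refine ⟨γ, hγ.1, hγ.2, ?_⟩
      intro j hj hjγ
      rcases j with _ | j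
      · exact hγ0 hjγ.symm
      · have h3 := hc.miss (j + 1) (by omega)
        rw [hjγ] at h3
        refine hE (j + 1) (by omega) m hm b c r (hc.pre (by omega)) γ hγ.1 ρ ?_ ?_ hγ.2 h3
        · rcases hρ with h | h
          · exact Or.inl h
          · exact Or.inr (Or.inl h)
        · have h4 := hc.notr j (by omega)
          rcases hρ with h | h
          · rw [h]; exact h4.1.symm
          · rw [h]; exact h4.2.symm
    intro m hm b c r hc α hα u hu hub hαu hαv
    -- first move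
    obtain ⟨ρ1, hρ1, hcond⟩ : ∃ ρ1, (ρ1 = x ∨ ρ1 = y) ∧ ∀ j ≤ p, c j = α → r j = ρ1 ∨ r j = u := by
      by_cases hex : ∃ j ≤ p, c j = α
      · obtain ⟨j, hj, hjα⟩ := hex
        refine ⟨r j, hc.root j (by omega), ?_⟩
        intro k hk hkα
        have h3 := hc.miss j (by omega)
        have h4 := hc.miss k (by omega)
        rw [hjα] at h3
        rw [hkα] at h4
        have h5 := elem_all hE hm (hc.pre (Nat.le_succ p)) hα
          (Or.inr (Or.inr ⟨j, by omega, rfl⟩)) (Or.inr (Or.inr ⟨k, by omega, rfl⟩)) h3 h4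
        have h6 := hc.inj j k (by omega) (by omega) h5
        rw [h6]
        exact Or.inl rfl
      · exact ⟨x, Or.inl rfl, fun j hj h => absurd ⟨j, hj, h⟩ hex⟩
    obtain ⟨γ1, hγ1, hγ1ρ, hγ1c⟩ := hget m hm b c r hc ρ1 hρ1
    obtain ⟨m1, hm1, hc1, h1v, h1ρ⟩ := move hE hm hc hα hγ1 hu hαu hαv hρ1 hγ1ρ hγ1c hcond
    -- second move
    have hρ2 := hc.root p (by omega)
    obtain ⟨γ2, hγ2, hγ2ρ, hγ2c⟩ := hget m1 hm1 b c r hc1 (r p) hρ2
    obtain ⟨m2, hm2, hc2, h2v, h2ρ⟩ := move hE hm1 hc1 hγ1 hγ2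
      (by rcases hρ1 with h | h; exact Or.inl h; exact Or.inr (Or.inl h) : Bef x y b (p + 1) ρ1)
      h1ρ h1v hρ2 hγ2ρ hγ2c (fun j hj h => absurd h (hγ1c j hj))
    exact final (hE p le_rfl) hm2 hc2 hγ2 (fun j hj => hγ2c j (by omega)) h2ρ h2v

end fin

end Pool.Agent.K7.H15.WR
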