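import Pool.Agent.K7.H15.WR.Lift

set_option autoImplicit false

/-!
# Chromatic indices
-/

namespace Pool.Agent.K7.H15.WR

open Finset Pool.Agent.X76.Wr

/-- the numbers of colours of proper edge colourings -/
def Cols {V : Type} (G : SimpleGraph V) : Set ℕ :=
  {k : ℕ | ∃ c : Sym2 V → Fin k, ∀ e ∈ G.edgeSet, ∀ f ∈ G.edgeSet,
    e ≠ f → (∃ v, v ∈ e ∧ v ∈ f) → c e ≠ c f}

theorem Cols.ec {V : Type} {G : SimpleGraph V} {k : ℕ} (h : k ∈ Cols G) : EC k G := by
  obtain ⟨c, hc⟩ := h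
  refine ⟨fun u v => c s(u, v), fun u v huv => ⟨?_, (c s(u, v)).2, ?_⟩⟩
  · show (c s(u, v)).val = (c s(v, u)).val
    rw [Sym2.eq_swap]
  · intro w huw hvw heq
    refine hc s(u, v) huv s(u, w) huw ?_ ⟨u, by simp, by simp⟩ (Fin.ext heq)
    intro h
    rw [Sym2.eq_iff] at h
    rcases h with ⟨-, h⟩ | ⟨h1, h2⟩
    · exact hvw h
    · exact hvw (h2.trans h1)

theorem EC.cols {V : Type} {G : SimpleGraph V} {k : ℕ} (h : EC k G) (hk : 1 ≤ k) :
    k ∈ Cols G := by
  classical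
  obtain ⟨c, hc⟩ := h
  let c' : Sym2 V → Fin k := fun e => if h : c e.out.1 e.out.2 < k then ⟨_, h⟩ else ⟨0, hk⟩
  have key : ∀ u v, G.Adj u v → (c' s(u, v)).val = c u v := by
    intro u v huv
    have h1 : s((s(u, v)).out.1, (s(u, v)).out.2) = s(u, v) := by
      have := Quot.out_eq s(u, v)
      exact this
    rw [Sym2.eq_iff] at h1
    rcases h1 with ⟨h1, h2⟩ | ⟨h1, h2⟩
    · simp only [c', h1, h2, (hc u v huv).2.1, dif_pos]
    · simp only [c', h1, h2, (hc v u huv.symm).2.1, dif_pos]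
      exact (hc v u huv.symm).1
  refine ⟨c', ?_⟩
  intro e he f hf hef hv heq
  obtain ⟨v, hve, hvf⟩ := hv
  obtain ⟨a, rfl⟩ := Sym2.mem_iff_exists.1 hve
  obtain ⟨b, rfl⟩ := Sym2.mem_iff_exists.1 hvf
  have h1 := congrArg Fin.val heq
  rw [key v a he, key v b hf] at h1
  refine (hc v a he).2.2 b hf ?_ h1
  rintro rfl
  exact hef rfl

theorem le_of_cols {V : Type} [Fintype V] {G : SimpleGraph V} [DecidableRel G.Adj] {k : ℕ}
    (h : k ∈ Cols G) : G.maxDegree ≤ k := by
  classical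
  obtain ⟨c, hc⟩ := Cols.ec h
  apply SimpleGraph.maxDegree_le_of_forall_degree_le
  intro v
  rw [← SimpleGraph.card_neighborFinset_eq_degree, ← Finset.card_range k]
  apply Finset.card_le_card_of_injOn (fun w => c v w)
  · intro w hw
    rw [mem_coe, SimpleGraph.mem_neighborFinset] at hw
    rw [mem_coe, mem_range]
    exact (hc v w hw).2.1
  · intro a ha b hb hab
    rw [mem_coe, SimpleGraph.mem_neighborFinset] at ha hb
    by_contra hne
    exact (hc v a ha).2.2 b hb hne hab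

theorem idx_eq {V : Type} [Fintype V] {G : SimpleGraph V} [DecidableRel G.Adj]
    (h : EC G.maxDegree G) (h1 : 1 ≤ G.maxDegree) : sInf (Cols G) = G.maxDegree :=
  le_antisymm (Nat.sInf_le (EC.cols h h1)) (le_csInf ⟨_, EC.cols h h1⟩ fun _ hk => le_of_cols hk)

theorem ec_of_idx {V : Type} [Fintype V] {G : SimpleGraph V} [DecidableRel G.Adj]
    (hne : G.edgeSet.Nonempty) (h : sInf (Cols G) = G.maxDegree) :
    1 ≤ G.maxDegree ∧ EC G.maxDegree G := by
  classical
  have h1 : 1 ≤ G.maxDegree := by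
    obtain ⟨e, he⟩ := hne
    induction e using Sym2.ind with
    | _ x y =>
      exact ((G.degree_pos_iff_exists_adj x).2 ⟨y, he⟩).trans_le (G.degree_le_maxDegree x)
  refine ⟨h1, ?_⟩
  have hne' : (Cols G).Nonempty := by
    by_contra h2
    rw [Set.not_nonempty_iff_eq_empty] at h2
    rw [h2, Nat.sInf_empty] at h
    omega
  rw [← h]
  exact Cols.ec (Nat.sInf_mem hne')

end Pool.Agent.K7.H15.WR
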