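import Pool.Agent.K7.H15.WR.Cross

set_option autoImplicit false

/-!
# Edge colourings of wreath products from edge colourings of `H`
-/

namespace Pool.Agent.K7.H15.WR

open Finset Pool.Agent.MPd14d18 Pool.Agent.X76.Wr

theorem exists_enum : ∃ e : Finset ℕ → ℕ → ℕ, ∀ S, (∀ i < S.card, e S i ∈ S) ∧
    ∀ i < S.card, ∀ j < S.card, e S i = e S j → i = j := by
  classical
  refine ⟨fun S i => if h : i < S.card then (S.equivFin.symm ⟨i, h⟩ : ℕ) else 0, fun S => ⟨?_, ?_⟩⟩
  · intro i hi
    simp only [hi, dif_pos]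
    exact (S.equivFin.symm ⟨i, hi⟩).2
  · intro i hi j hj h
    simp only [hi, hj, dif_pos] at h
    have h1 := S.equivFin.symm.injective (Subtype.ext h)
    exact congrArg Fin.val h1

section

variable {V W : Type} [Fintype V] [Fintype W] [DecidableEq W] {G : SimpleGraph V}
  {G' : SimpleGraph W} [DecidableRel G'.Adj]

/-- the colouring is good at the vertex `p` -/
def GoodAt (D : ℕ) (H : SimpleGraph (V × W)) (c : V × W → V × W → ℕ) (p : V × W) : Prop :=
  ∀ r, H.Adj p r → c p r = c r p ∧ c p r < D ∧ ∀ s, H.Adj p s → r ≠ s → c p r ≠ c p s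

theorem lift_NI {d D : ℕ} (hG : EC d G) (hD : ∀ u, d * orb G' u + G'.degree u ≤ D)
    {m : ℕ → W → W} (hm : Ok (range D) (zF G' d (crossE G')) m) :
    ∃ c : V × W → V × W → ℕ, ∀ p, NI G' p.2 → GoodAt D (wreath G G') c p := by
  classical
  obtain ⟨cG, hcG⟩ := hG
  obtain ⟨e, he⟩ := exists_enum
  let C : W → W → Finset ℕ := fun u w => (range D).filter fun c => m c u = w
  have hCC : ∀ u w, C u w = C w u := by
    intro u w
    ext c
    simp only [C, mem_filter]
    constructor
    · rintro ⟨h1, h2⟩; exact ⟨h1, by rw [← h2, hm.1]⟩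
    · rintro ⟨h1, h2⟩; exact ⟨h1, by rw [← h2, hm.1]⟩
  have hC : ∀ u w, u ≠ w → (C u w).card = zF G' d (crossE G') u w := by
    intro u w huw
    rw [← hm.2 u w huw, mu_eq_card]
  have hC0 : ∀ u, d ≤ (C u u).card := by
    intro u
    have h1 := missing_add (range D) m u
    have h2 : ∑ w ∈ univ.erase u, mu (range D) m u w =
        ∑ w ∈ univ.erase u, zF G' d (crossE G') u w :=
      Finset.sum_congr rfl fun w hw => hm.2 u w (Finset.ne_of_mem_erase hw).symm
    rw [h2, card_range] at h1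
    have h3 := degF (d := d) (subset_refl (crossE G')) u
    have h4 := hD u
    have h5 : (C u u).card = ((range D).filter (fun c => m c u = u)).card := rfl
    omega
  have hCT : ∀ u w, NI G' u → T G' u w → d ≤ (C u w).card := by
    intro u w hu hT
    by_cases huw : u = w
    · subst huw; exact hC0 u
    · rw [hC u w huw, zF, zin, if_pos ⟨hu, hT, huw⟩]
      omega
  have hCT' : ∀ u w, NI G' u → T G' u w → G'.Adj u w → (C u w).card = d + 1 := by
    intro u w hu hT hadj
    have huw := G'.ne_of_adj hadj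
    rw [hC u w huw, zF, zin, if_pos ⟨hu, hT, huw⟩, if_pos hadj,
      if_neg (fun h => (mem_crossE.1 h).2 hT)]
    omega
  have hCN : ∀ u w, ¬ T G' u w → G'.Adj u w → (C u w).card = 1 := by
    intro u w hT hadj
    have huw := G'.ne_of_adj hadj
    rw [hC u w huw, zF, zin, if_neg (fun h => hT h.2.1), if_pos (mem_crossE.2 ⟨hadj, hT⟩)]
  -- the index of an edge
  let idx : V × W → V × W → ℕ := fun p r =>
    if p.1 = r.1 then (if T G' p.2 r.2 then d else 0) else cG p.1 r.1
  have hidx : ∀ p r, NI G' p.2 → (wreath G G').Adj p r → idx p r < (C p.2 r.2).card := by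
    rintro p r hp (⟨h1, h2⟩ | ⟨h1, h2⟩)
    · simp only [idx, if_pos h1]
      by_cases hT : T G' p.2 r.2
      · rw [if_pos hT, hCT' _ _ hp hT h2]; omega
      · rw [if_neg hT, hCN _ _ hT h2]; omega
    · simp only [idx, if_neg (G.ne_of_adj h1)]
      exact (hcG _ _ h1).2.1.trans_le (hCT _ _ hp h2)
  let c : V × W → V × W → ℕ := fun p r => e (C p.2 r.2) (idx p r)
  have hcm : ∀ p r, NI G' p.2 → (wreath G G').Adj p r → c p r ∈ C p.2 r.2 :=
    fun p r hp hpr => (he _).1 _ (hidx p r hp hpr)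
  refine ⟨c, fun p hp r hpr => ⟨?_, ?_, ?_⟩⟩
  · have h1 : idx p r = idx r p := by
      rcases hpr with ⟨h1, h2⟩ | ⟨h1, h2⟩
      · simp only [idx, if_pos h1, if_pos h1.symm]
        by_cases hT : T G' p.2 r.2
        · rw [if_pos hT, if_pos hT.symm]
        · rw [if_neg hT, if_neg (fun h => hT h.symm)]
      · simp only [idx, if_neg (G.ne_of_adj h1), if_neg (G.ne_of_adj h1.symm)]
        exact (hcG _ _ h1).1
    simp only [c, h1, hCC p.2 r.2]
  · have := hcm p r hp hpr
    exact mem_range.1 (mem_filter.1 this).1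
  · intro s hps hrs heq
    have h1 := (mem_filter.1 (hcm p r hp hpr)).2
    have h2 := (mem_filter.1 (hcm p s hp hps)).2
    rw [heq, h2] at h1
    -- the second coordinates are equal
    have h3 : idx p r = idx p s := by
      apply (he (C p.2 r.2)).2 _ (hidx p r hp hpr) _ (by rw [← h1]; exact hidx p s hp hps)
      have : c p r = c p s := heq
      simp only [c, h1] at this
      exact this
    by_cases h4 : p.1 = r.1
    · by_cases h5 : p.1 = s.1
      · exact hrs (Prod.ext (h4.symm.trans h5) h1.symm)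
      · have h6 : G.Adj p.1 s.1 ∧ T G' p.2 s.2 := by
          rcases hps with h | h
          · exact absurd h.1 h5
          · exact h
        simp only [idx, if_pos h4, if_neg h5, ← h1, if_pos h6.2] at h3
        have := (hcG _ _ h6.1).2.1
        omega
    · have h6 : G.Adj p.1 r.1 ∧ T G' p.2 r.2 := by
        rcases hpr with h | h
        · exact absurd h.1 h4
        · exact h
      by_cases h5 : p.1 = s.1
      · have h7 : T G' p.2 s.2 := by rw [h1]; exact h6.2
        simp only [idx, if_neg h4, if_pos h5, if_pos h7] at h3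
        have := (hcG _ _ h6.1).2.1
        omega
      · have h7 : G.Adj p.1 s.1 := by
          rcases hps with h | h
          · exact absurd h.1 h5
          · exact h.1
        simp only [idx, if_neg h4, if_neg h5] at h3
        by_cases h8 : r.1 = s.1
        · exact hrs (Prod.ext h8 h1.symm)
        · exact (hcG _ _ h6.1).2.2 _ h7 h8 h3

theorem lift_iso {d D : ℕ} (hd : 1 ≤ d) (hG : EC d G)
    (hD : ∀ u, d * orb G' u + G'.degree u ≤ D) (w0 : W) (h0 : ¬ NI G' w0) :
    ∃ c : V × W → V × W → ℕ, ∀ p : V × W, T G' w0 p.2 → GoodAt D (wreath G G') c p := by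
  classical
  let G0 : SimpleGraph {w // T G' w0 w} := G'.comap Subtype.val
  have hdeg : ∀ w, G0.degree w ≤ G'.degree w0 := by
    intro w
    rw [degree_T w.2, ← SimpleGraph.card_neighborFinset_eq_degree,
      ← SimpleGraph.card_neighborFinset_eq_degree]
    apply Finset.card_le_card_of_injOn (fun v => v.1)
    · intro v hv
      rw [mem_coe, SimpleGraph.mem_neighborFinset] at hv ⊢
      exact hv
    · intro a _ b _ h
      exact Subtype.ext h
  have hG0 : EC (G'.degree w0 + 1) G0 := vizing_EC G0 (G'.degree w0) hdeg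
  have horb : ∀ w, orb G0 w ≤ orb G' w0 := by
    intro w
    rw [← card_orbit, ← card_orbit]
    calc (univ.filter fun v => T G0 w v).card ≤ (univ : Finset {w // T G' w0 w}).card :=
          Finset.card_le_card (Finset.filter_subset _ _)
      _ = _ := by rw [Finset.card_univ, Fintype.card_subtype]
  have h1 := hD w0
  have h2 := orb_pos (G' := G') w0
  have h3 : d * orb G' w0 = d * (orb G' w0 - 1) + d := by
    obtain ⟨k, hk⟩ : ∃ k, orb G' w0 = k + 1 := ⟨orb G' w0 - 1, by omega⟩
    rw [hk, Nat.add_sub_cancel, Nat.mul_succ]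
  obtain ⟨c0, hc0⟩ := wreath_EC G G0 d (G'.degree w0 + 1) D hG hG0 (by omega)
    (fun w => by
      have h4 := Nat.mul_le_mul_left d (horb w)
      have h5 := hdeg w
      omega)
    (fun w => by
      have h4 := Nat.mul_le_mul_left d (Nat.sub_le_sub_right (horb w) 1)
      omega)
  let c : V × W → V × W → ℕ := fun p r =>
    if h : T G' w0 p.2 ∧ T G' w0 r.2 then c0 (p.1, ⟨p.2, h.1⟩) (r.1, ⟨r.2, h.2⟩) else 0
  have hT : ∀ p r : V × W, T G' w0 p.2 → (wreath G G').Adj p r → T G' w0 r.2 := by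
    rintro p r hp (⟨-, h⟩ | ⟨-, h⟩)
    · by_contra hr
      apply h0
      refine NI.of_T (NI.left h ?_) hp.symm
      intro h'
      exact hr (hp.trans h')
    · exact hp.trans h
  have hadj : ∀ (p r : V × W) (hp : T G' w0 p.2) (hr : T G' w0 r.2), (wreath G G').Adj p r →
      (wreath G G0).Adj (p.1, ⟨p.2, hp⟩) (r.1, ⟨r.2, hr⟩) := by
    rintro p r hp hr (⟨h1, h2⟩ | ⟨h1, φ, h2⟩)
    · exact Or.inl ⟨h1, h2⟩
    · refine Or.inr ⟨h1, ⟨φ.toEquiv.subtypeEquiv fun w => ⟨fun h => h.trans (T.iso φ w),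
        fun h => h.trans (T.iso φ w).symm⟩, ?_⟩, ?_⟩
      · intro a b
        exact φ.map_adj_iff
      · exact Subtype.ext h2
  have hcv : ∀ (p r : V × W) (hp : T G' w0 p.2) (hr : T G' w0 r.2),
      c p r = c0 (p.1, ⟨p.2, hp⟩) (r.1, ⟨r.2, hr⟩) := by
    intro p r hp hr
    exact dif_pos ⟨hp, hr⟩
  refine ⟨c, fun p hp r hpr => ?_⟩
  have hr := hT p r hp hpr
  obtain ⟨h4, h5, h6⟩ := hc0 _ _ (hadj p r hp hr hpr)
  refine ⟨?_, ?_, ?_⟩
  · rw [hcv p r hp hr, hcv r p hr hp]
    exact h4
  · rw [hcv p r hp hr]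
    exact h5
  · intro s hps hrs
    have hs := hT p s hp hps
    rw [hcv p r hp hr, hcv p s hp hs]
    apply h6 _ (hadj p s hp hs hps)
    intro h
    apply hrs
    have h7 := congrArg Prod.fst h
    have h8 := congrArg (fun q => (q.2 : W)) h
    exact Prod.ext h7 h8

/-- **Edge colourings of wreath products.** -/
theorem main_EC {d D : ℕ} (hd : 1 ≤ d) (hG : EC d G)
    (hD : ∀ u, d * orb G' u + G'.degree u ≤ D) (hc : 2 ≤ d ∨ Cond G' d D) :
    EC D (wreath G G') := by
  classical
  obtain ⟨m, hm⟩ := cross_colouring hd hD hc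
  obtain ⟨c1, hc1⟩ := lift_NI (V := V) hG hD hm
  have hex : ∀ w0 : W, ∃ c : V × W → V × W → ℕ, ¬ NI G' w0 →
      ∀ p : V × W, T G' w0 p.2 → GoodAt D (wreath G G') c p := by
    intro w0
    by_cases h0 : NI G' w0
    · exact ⟨fun _ _ => 0, fun h => absurd h0 h⟩
    · obtain ⟨c, hc⟩ := lift_iso hd hG hD w0 h0
      exact ⟨c, fun _ => hc⟩
  choose c2 hc2 using hex
  -- representatives of the orbits
  obtain ⟨rep, hrep1, hrep2⟩ : ∃ rep : W → W, (∀ w, T G' (rep w) w) ∧
      ∀ w w', T G' w w' → rep w = rep w' := by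
    let st : Setoid W := ⟨T G', ⟨T.refl, fun h => h.symm, fun h h' => h.trans h'⟩⟩
    refine ⟨fun w => (Quotient.mk st w).out, fun w => ?_, fun w w' h => ?_⟩
    · exact Quotient.exact (Quotient.out_eq (Quotient.mk st w))
    · have h1 : Quotient.mk st w = Quotient.mk st w' := Quotient.sound h
      simp only [h1]
  have hniso : ∀ p r : V × W, ¬ NI G' p.2 → (wreath G G').Adj p r →
      T G' p.2 r.2 := by
    rintro p r hp (⟨-, h⟩ | ⟨-, h⟩)
    · by_contra hr
      exact hp (NI.left h hr)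
    · exact h
  have hniff : ∀ p r : V × W, (wreath G G').Adj p r → (NI G' p.2 ↔ NI G' r.2) := by
    rintro p r (⟨-, h⟩ | ⟨-, h⟩)
    · by_cases hT : T G' p.2 r.2
      · exact ⟨fun h1 => h1.of_T hT, fun h1 => h1.of_T hT.symm⟩
      · exact ⟨fun _ => NI.right h hT, fun _ => NI.left h hT⟩
    · exact ⟨fun h1 => h1.of_T h, fun h1 => h1.of_T (T.symm h)⟩
  refine ⟨fun p r => if NI G' p.2 then c1 p r else c2 (rep p.2) p r, ?_⟩
  intro p r hpr
  by_cases hp : NI G' p.2
  · have hr := (hniff p r hpr).1 hp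
    obtain ⟨h1, h2, h3⟩ := hc1 p hp r hpr
    simp only [if_pos hp, if_pos hr]
    exact ⟨h1, h2, h3⟩
  · have hr : ¬ NI G' r.2 := fun h => hp ((hniff p r hpr).2 h)
    have hrp := hrep2 _ _ (hniso p r hp hpr)
    have hnr : ¬ NI G' (rep p.2) := fun h => hp (h.of_T (hrep1 _))
    obtain ⟨h1, h2, h3⟩ := hc2 (rep p.2) hnr p (hrep1 _) r hpr
    simp only [if_neg hp, if_neg hr, ← hrp]
    exact ⟨h1, h2, h3⟩

end

end Pool.Agent.K7.H15.WR
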