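import Pool.Agent.K7.H15.WR.Ext
import Pool.Agent.X76.PM13

set_option autoImplicit false

/-!
# A local form of Vizing's theorem for multigraphs, and the colouring of the edges between orbits
-/

namespace Pool.Agent.K7.H15.WR

open Finset Pool.Agent.MPd14d18 Pool.Agent.X76.PM

/-- Vizing's theorem: it suffices that the degree of each vertex plus the multiplicity of each edge
at it is at most the number of colours. -/
theorem lvizing {V : Type} [Fintype V] [DecidableEq V] (L : Finset ℕ) (z : V → V → ℕ)
    (hs : ∀ x y, z x y = z y x) (hz0 : ∀ x, z x x = 0)
    (hd : ∀ u x, z u x + ∑ w ∈ univ.erase u, z u w ≤ L.card) :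
    ∃ m, Ok L z m := by
  classical
  have hall : ∀ X : Finset V, ∃ m : ℕ → V → V, (∀ c v, m c (m c v) = v) ∧
      ∀ u w, u ≠ w → mu L m u w = if u ∈ X ∧ w ∈ X then z u w else 0 := by
    intro X
    induction X using Finset.induction_on with
    | empty =>
      refine ⟨fun _ v => v, fun _ _ => rfl, ?_⟩
      intro u w huw
      rw [mu_eq_card, Finset.card_eq_zero.2]
      · simp
      · rw [Finset.filter_eq_empty_iff]
        intro _ _ h
        exact huw h
    | insert x X hx ih =>
      obtain ⟨m, hm, hmu⟩ := ih
      have hmiss : ∀ u, (L.filter (fun c => m c u = u)).card +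
          ∑ w ∈ univ.erase u, (if u ∈ X ∧ w ∈ X then z u w else 0) = L.card := by
        intro u
        rw [← missing_add L m u]
        congr 1
        refine Finset.sum_congr rfl fun w hw => ?_
        rw [mem_erase] at hw
        exact (hmu u w hw.1.symm).symm
      have hxi : ∀ c ∈ L, m c x = x := by
        have h1 := hmiss x
        rw [Finset.sum_eq_zero (fun w _ => if_neg (fun h => hx h.1)), add_zero] at h1
        exact Finset.card_filter_eq_iff.mp h1
      let k : V → ℕ := fun u => if u ∈ X then z x u else 0
      have hkz : ∀ u, k u ≤ z x u := by
        intro u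
        simp only [k]
        split_ifs
        · exact le_rfl
        · exact Nat.zero_le _
      have hksum : ∑ u, k u ≤ L.card := by
        refine (Finset.sum_le_sum fun u _ => hkz u).trans ?_
        rw [← Finset.add_sum_erase univ (fun w => z x w) (mem_univ x)]
        exact hd x x
      obtain ⟨m', hm', -, hmu'⟩ := add_vertex' x L.card L rfl m hm hxi k x
        (by simp [k, hx]) hksum (by
          intro u
          have h1 := hmiss u
          by_cases hu : u ∈ X
          · have hux : u ≠ x := fun h => hx (h ▸ hu)
            have h2 : ∑ w ∈ univ.erase u, (if u ∈ X ∧ w ∈ X then z u w else 0) + z x u ≤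
                ∑ w ∈ univ.erase u, z u w := by
              rw [hs x u, ← Finset.add_sum_erase (univ.erase u) (fun w => z u w)
                (mem_erase.2 ⟨hux.symm, mem_univ x⟩),
                ← Finset.add_sum_erase (univ.erase u)
                  (fun w => if u ∈ X ∧ w ∈ X then z u w else 0)
                (mem_erase.2 ⟨hux.symm, mem_univ x⟩), if_neg (fun h => hx h.2), zero_add,
                add_comm]
              apply Nat.add_le_add_left
              apply Finset.sum_le_sum
              intro w _
              split_ifs
              · exact le_rfl
              · exact Nat.zero_le _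
            have h3 := hkz u
            have h4 := hd u x
            rw [hs u x] at h4
            omega
          · simp only [k, hu, if_false]
            omega)
      refine ⟨m', hm', ?_⟩
      intro u w huw
      rw [hmu' u w huw, hmu u w huw]
      simp only [mem_insert, k]
      by_cases hux : u = x
      · have hwx : w ≠ x := fun h => huw (hux.trans h.symm)
        subst hux
        simp [hx, hwx]
      · by_cases hwx : w = x
        · subst hwx
          simp [hx, hux, hs w u]
        · simp [hux, hwx]
  obtain ⟨m, hm, hmu⟩ := hall univ
  refine ⟨m, hm, fun u w huw => ?_⟩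
  rw [hmu u w huw, if_pos ⟨mem_univ _, mem_univ _⟩]

end Pool.Agent.K7.H15.WR
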